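import Mathlib

set_option autoImplicit false

namespace Pool.Agent.P.MP_358d01_co.H51

open Finset

abbrev Pt := Fin 3 → ℝ

/-- orientation determinant of four points of 3-space -/
def D (a b c e : Pt) : ℝ :=
  (b 0 - a 0) * ((c 1 - a 1) * (e 2 - a 2) - (c 2 - a 2) * (e 1 - a 1))
  - (b 1 - a 1) * ((c 0 - a 0) * (e 2 - a 2) - (c 2 - a 2) * (e 0 - a 0))
  + (b 2 - a 2) * ((c 0 - a 0) * (e 1 - a 1) - (c 1 - a 1) * (e 0 - a 0))

def IsAff (φ : Pt → ℝ) : Prop :=
  ∃ w0 w1 w2 k : ℝ, ∀ p, φ p = w0 * p 0 + w1 * p 1 + w2 * p 2 + k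

lemma D_swap12 (a b c e : Pt) : D b a c e = - D a b c e := by unfold D; ring
lemma D_swap23 (a b c e : Pt) : D a c b e = - D a b c e := by unfold D; ring
lemma D_swap34 (a b c e : Pt) : D a b e c = - D a b c e := by unfold D; ring

lemma IsAff.of_eval {φ : Pt → ℝ}
    (h : ∀ p, φ p = (φ ![1, 0, 0] - φ 0) * p 0 + (φ ![0, 1, 0] - φ 0) * p 1
      + (φ ![0, 0, 1] - φ 0) * p 2 + φ 0) : IsAff φ := ⟨_, _, _, _, h⟩

lemma isAff_D4 (a b c : Pt) : IsAff (fun p => D a b c p) := by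
  apply IsAff.of_eval; intro p; simp [D]; ring
lemma isAff_D3 (a b c : Pt) : IsAff (fun p => D a b p c) := by
  apply IsAff.of_eval; intro p; simp [D]; ring
lemma isAff_D2 (a b c : Pt) : IsAff (fun p => D a p b c) := by
  apply IsAff.of_eval; intro p; simp [D]; ring
lemma isAff_D1 (a b c : Pt) : IsAff (fun p => D p a b c) := by
  apply IsAff.of_eval; intro p; simp [D]; ring

lemma IsAff.const_mul {φ : Pt → ℝ} (h : IsAff φ) (t : ℝ) : IsAff (fun p => t * φ p) := by
  obtain ⟨w0, w1, w2, k, h⟩ := h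
  exact ⟨t * w0, t * w1, t * w2, t * k, fun p => by simp only [h]; ring⟩

lemma IsAff.neg {φ : Pt → ℝ} (h : IsAff φ) : IsAff (fun p => - φ p) := by
  obtain ⟨w0, w1, w2, k, h⟩ := h
  exact ⟨-w0, -w1, -w2, -k, fun p => by simp only [h]; ring⟩

lemma IsAff.sub {φ ψ : Pt → ℝ} (h : IsAff φ) (h' : IsAff ψ) : IsAff (fun p => φ p - ψ p) := by
  obtain ⟨w0, w1, w2, k, h⟩ := h
  obtain ⟨v0, v1, v2, l, h'⟩ := h'
  exact ⟨w0 - v0, w1 - v1, w2 - v2, k - l, fun p => by simp only [h, h']; ring⟩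

lemma IsAff.combo {φ : Pt → ℝ} (h : IsAff φ) (x y : Pt) {s t : ℝ} (hst : s + t = 1) :
    φ (s • x + t • y) = s * φ x + t * φ y := by
  obtain ⟨w0, w1, w2, k, h⟩ := h
  simp only [h, Pi.add_apply, Pi.smul_apply, smul_eq_mul]
  have : k = (s + t) * k := by rw [hst, one_mul]
  linear_combination this

/-- the affine dependence of five points -/
lemma IsAff.five {φ : Pt → ℝ} (h : IsAff φ) (a b c d e : Pt) :
    φ a * D b c d e - φ b * D a c d e + φ c * D a b d e - φ d * D a b c e + φ e * D a b c d = 0 := by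
  obtain ⟨w0, w1, w2, k, h⟩ := h
  simp only [h, D]; ring

/-- three-term relation around the axis through `x` and `c` -/
lemma axis (x c u v w g : Pt) :
    D x c u w * D x c v g = D x c u v * D x c w g + D x c v w * D x c u g := by
  unfold D; ring

lemma IsAff.convex_pos {φ : Pt → ℝ} (h : IsAff φ) : Convex ℝ {p | 0 < φ p} := by
  intro x hx y hy s t hs ht hst
  simp only [Set.mem_ofPred_eq] at *
  rw [h.combo x y hst]
  rcases eq_or_lt_of_le hs with h0 | h0
  · have : t = 1 := by linarith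
    rw [← h0, this]; linarith
  · have := mul_pos h0 hx
    have := mul_nonneg ht hy.le
    linarith

lemma IsAff.hull_pos {φ : Pt → ℝ} (h : IsAff φ) {A : Set Pt} (hA : ∀ a ∈ A, 0 < φ a) {x : Pt}
    (hx : x ∈ convexHull ℝ A) : 0 < φ x :=
  convexHull_min (s := A) (t := {p | 0 < φ p}) hA h.convex_pos hx

lemma IsAff.hull_neg {φ : Pt → ℝ} (h : IsAff φ) {A : Set Pt} (hA : ∀ a ∈ A, φ a < 0) {x : Pt}
    (hx : x ∈ convexHull ℝ A) : φ x < 0 := by
  have := h.neg.hull_pos (A := A) (fun a ha => by have := hA a ha; simp; linarith) hx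
  simp at this; linarith

lemma IsAff.hull_pos_or_eq {φ : Pt → ℝ} (h : IsAff φ) {A : Set Pt} {z : Pt} (hz : φ z = 0)
    (hA : ∀ a ∈ A, 0 < φ a ∨ a = z) {x : Pt} (hx : x ∈ convexHull ℝ A) : 0 < φ x ∨ x = z := by
  refine convexHull_min (s := A) (t := {p | 0 < φ p ∨ p = z}) hA ?_ hx
  intro x hx y hy s t hs ht hst
  simp only [Set.mem_ofPred_eq] at *
  rcases hx with hx | hx
  · rcases hy with hy | hy
    · exact Or.inl (h.convex_pos hx hy hs ht hst)
    · rcases eq_or_lt_of_le hs with h0 | h0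
      · right
        have : t = 1 := by linarith
        rw [← h0, this, hy]; simp
      · left; rw [h.combo x y hst, hy, hz]
        have := mul_pos h0 hx
        linarith
  · rcases hy with hy | hy
    · rcases eq_or_lt_of_le ht with h0 | h0
      · right
        have : s = 1 := by linarith
        rw [← h0, this, hx]; simp
      · left; rw [h.combo x y hst, hx, hz]
        have := mul_pos h0 hy
        linarith
    · right; rw [hx, hy, ← add_smul, hst, one_smul]

lemma IsAff.exists_zero {φ : Pt → ℝ} (h : IsAff φ) {K : Set Pt} (hK : Convex ℝ K) {x y : Pt}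
    (hx : x ∈ K) (hy : y ∈ K) (h1 : 0 < φ x) (h2 : φ y ≤ 0) : ∃ z ∈ K, φ z = 0 := by
  have hd : 0 < φ x - φ y := by linarith
  refine ⟨(-φ y / (φ x - φ y)) • x + (φ x / (φ x - φ y)) • y, ?_, ?_⟩
  · refine hK hx hy (div_nonneg (by linarith) hd.le) (div_nonneg h1.le hd.le) ?_
    field_simp; ring
  · rw [h.combo x y (by field_simp; ring)]
    field_simp; ring

lemma IsAff.same_sign {φ : Pt → ℝ} (h : IsAff φ) {K : Set Pt} (hK : Convex ℝ K)
    (hne : ∀ z ∈ K, φ z ≠ 0) {x y : Pt} (hx : x ∈ K) (hy : y ∈ K) : 0 < φ x * φ y := by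
  rcases lt_or_gt_of_ne (hne x hx) with h1 | h1
  · rcases lt_or_gt_of_ne (hne y hy) with h2 | h2
    · exact mul_pos_of_neg_of_neg h1 h2
    · obtain ⟨z, hz, h0⟩ := h.exists_zero hK hy hx h2 h1.le
      exact absurd h0 (hne z hz)
  · rcases lt_or_gt_of_ne (hne y hy) with h2 | h2
    · obtain ⟨z, hz, h0⟩ := h.exists_zero hK hx hy h1 h2.le
      exact absurd h0 (hne z hz)
    · exact mul_pos h1 h2

/-- general position -/
def GP (S : Finset Pt) : Prop :=
  ∀ a ∈ S, ∀ b ∈ S, ∀ c ∈ S, ∀ e ∈ S, a ≠ b → a ≠ c → a ≠ e → b ≠ c → b ≠ e → c ≠ e →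
    D a b c e ≠ 0

/-- convex position -/
def Conv (Z : Finset Pt) : Prop := ∀ p ∈ Z, p ∉ convexHull ℝ ((Z.erase p : Finset Pt) : Set Pt)

lemma Conv.subset {Z Y : Finset Pt} (h : Conv Z) (hY : Y ⊆ Z) : Conv Y := by
  intro p hp hc
  refine h p (hY hp) (convexHull_mono ?_ hc)
  exact_mod_cast erase_subset_erase p hY

/-- no `n` points in convex position -/
def NC (n : ℕ) (S : Finset Pt) : Prop := ∀ Z ⊆ S, Conv Z → Z.card < n

lemma exists_plane (p q r : Pt) :
    ∃ φ : Pt → ℝ, IsAff φ ∧ φ p = 0 ∧ φ q = 0 ∧ φ r = 0 ∧ ∃ u, φ u ≠ 0 := by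
  let M : Matrix (Fin 3) (Fin 4) ℝ := !![p 0, p 1, p 2, 1; q 0, q 1, q 2, 1; r 0, r 1, r 2, 1]
  have hk : LinearMap.ker (Matrix.mulVecLin M) ≠ ⊥ :=
    LinearMap.ker_ne_bot_of_finrank_lt (by simp)
  obtain ⟨w, hw, hw0⟩ := Submodule.exists_mem_ne_zero_of_ne_bot hk
  rw [LinearMap.mem_ker, Matrix.mulVecLin_apply] at hw
  have h0 := congrFun hw 0
  have h1 := congrFun hw 1
  have h2 := congrFun hw 2
  simp [M, Matrix.mulVec, dotProduct, Fin.sum_univ_four] at h0 h1 h2
  refine ⟨fun x => w 0 * x 0 + w 1 * x 1 + w 2 * x 2 + w 3, ⟨_, _, _, _, fun _ => rfl⟩,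
    by linarith, by linarith, by linarith, ?_⟩
  by_contra hall
  push Not at hall
  have e0 := hall 0
  have e1 := hall ![1, 0, 0]
  have e2 := hall ![0, 1, 0]
  have e3 := hall ![0, 0, 1]
  simp at e0 e1 e2 e3
  apply hw0
  ext i
  fin_cases i <;> simp <;> linarith

lemma GP.zeros_le {S : Finset Pt} (hS : GP S) {φ : Pt → ℝ} (hφ : IsAff φ) {u : Pt} (hu : φ u ≠ 0)
    {A : Finset Pt} (hA : A ⊆ S) : (A.filter (fun p => φ p = 0)).card ≤ 3 := by
  by_contra hc
  push Not at hc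
  obtain ⟨T, hT, hT4⟩ := exists_subset_card_eq (show 4 ≤ _ from hc)
  obtain ⟨a, b, c, e, hab, hac, hae, hbc, hbe, hce, rfl⟩ := card_eq_four.1 hT4
  have m : ∀ x ∈ ({a, b, c, e} : Finset Pt), x ∈ S ∧ φ x = 0 := fun x hx =>
    ⟨hA (mem_filter.1 (hT hx)).1, (mem_filter.1 (hT hx)).2⟩
  have ha := m a (by simp)
  have hb := m b (by simp)
  have hc := m c (by simp)
  have he := m e (by simp)
  have h5 := hφ.five a b c e u
  rw [ha.2, hb.2, hc.2, he.2] at h5
  have hD := hS a ha.1 b hb.1 c hc.1 e he.1 hab hac hae hbc hbe hce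
  have : φ u * D a b c e = 0 := by linarith
  rcases mul_eq_zero.1 this with h | h
  · exact hu h
  · exact hD h

/-- transitivity of the angular order around a line that misses the points -/
lemma trans_line {φ : Pt → ℝ} (hφ : IsAff φ) {p q x y z : Pt} (hp : φ p = 0) (hq : φ q = 0)
    (hx : 0 < φ x) (hy : 0 < φ y) (hz : 0 < φ z) {κ : ℝ} (h1 : 0 < κ * D x y p q)
    (h2 : 0 < κ * D y z p q) : 0 < κ * D x z p q := by
  have h5 := hφ.five x y z p q
  rw [hp, hq] at h5
  have : φ y * (κ * D x z p q) = φ x * (κ * D y z p q) + φ z * (κ * D x y p q) := by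
    linear_combination (-κ) * h5
  have h3 : 0 < φ y * (κ * D x z p q) := by
    rw [this]; exact add_pos (mul_pos hx h2) (mul_pos hz h1)
  exact (mul_pos_iff_of_pos_left hy).1 h3

/-- transitivity of the angular order around the axis `x c` inside a half-space -/
lemma trans_axis {x c u v w g : Pt} {α β γ τ : ℝ}
    (hu : 0 < α * D x c u g) (hv : 0 < β * D x c v g) (hw : 0 < γ * D x c w g)
    (h1 : 0 < τ * α * β * D x c u v) (h2 : 0 < τ * β * γ * D x c v w) :
    0 < τ * α * γ * D x c u w := by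
  have h := axis x c u v w g
  have e : (τ * α * γ * D x c u w) * (β * D x c v g) =
      (τ * α * β * D x c u v) * (γ * D x c w g) + (τ * β * γ * D x c v w) * (α * D x c u g) := by
    linear_combination (τ * α * β * γ) * h
  have h3 : 0 < (τ * α * γ * D x c u w) * (β * D x c v g) := by
    rw [e]; exact add_pos (mul_pos h1 hw) (mul_pos h2 hu)
  exact (mul_pos_iff_of_pos_right hv).1 h3

end Pool.Agent.P.MP_358d01_co.H51
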