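import Pool.Agent.P.MP_358d01_co.H51.Basic

set_option autoImplicit false

namespace Pool.Agent.P.MP_358d01_co.H51

open Finset

/-- centerpoint theorem in 3-space -/
lemma exists_center (A : Finset Pt) :
    ∃ o : Pt, ∀ φ : Pt → ℝ, IsAff φ → φ o = 0 →
      A.card ≤ 4 * (A.filter (fun p => 0 ≤ φ p)).card := by
  classical
  rcases A.eq_empty_or_nonempty with hA | hA
  · exact ⟨0, fun φ _ _ => by simp [hA]⟩
  let F : Finset (Finset Pt) := A.powerset.filter (fun B => 4 * (A \ B).card < A.card)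
  have hH : (⋂ B ∈ F, convexHull ℝ (B : Set Pt)).Nonempty := by
    apply Convex.helly_theorem' (𝕜 := ℝ) (fun B _ => convex_convexHull ℝ _)
    intro I hI hc
    have hc4 : I.card ≤ 4 := by simpa using hc
    have hlt : (I.biUnion (fun B => A \ B)).card < A.card := by
      rcases I.eq_empty_or_nonempty with h0 | h0
      · simp [h0, hA.card_pos]
      have h1 : (I.biUnion (fun B => A \ B)).card ≤ ∑ B ∈ I, (A \ B).card := card_biUnion_le
      have h2 : ∑ B ∈ I, 4 * (A \ B).card < ∑ _B ∈ I, A.card :=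
        sum_lt_sum_of_nonempty h0 (fun B hB => (mem_filter.1 (hI hB)).2)
      rw [← mul_sum, sum_const, smul_eq_mul] at h2
      have h3 : I.card * A.card ≤ 4 * A.card := Nat.mul_le_mul_right _ hc4
      omega
    obtain ⟨a, ha, hna⟩ := exists_mem_notMem_of_card_lt_card hlt
    refine ⟨a, Set.mem_iInter₂.2 (fun B hB => subset_convexHull ℝ _ ?_)⟩
    by_contra hB'
    exact hna (mem_biUnion.2 ⟨B, hB, mem_sdiff.2 ⟨ha, hB'⟩⟩)
  obtain ⟨o, ho⟩ := hH
  refine ⟨o, fun φ hφ h0 => ?_⟩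
  by_contra hc
  push Not at hc
  have hB : A.filter (fun p => φ p < 0) ∈ F := by
    refine mem_filter.2 ⟨mem_powerset.2 (filter_subset _ _), ?_⟩
    have : A \ A.filter (fun p => φ p < 0) = A.filter (fun p => 0 ≤ φ p) := by
      ext p; simp only [mem_sdiff, mem_filter, not_and, not_lt]
      constructor
      · rintro ⟨h1, h2⟩; exact ⟨h1, h2 h1⟩
      · rintro ⟨h1, h2⟩; exact ⟨h1, fun _ => h2⟩
    rw [this]; exact hc
  have := hφ.hull_neg (A := (A.filter (fun p => φ p < 0) : Finset Pt))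
    (fun a ha => (mem_filter.1 (mem_coe.1 ha)).2) (Set.mem_iInter₂.1 ho _ hB)
  linarith

lemma side_card {S A : Finset Pt} (hS : GP S) (hA : A ⊆ S) {φ : Pt → ℝ} (hφ : IsAff φ) {u : Pt}
    (hu : φ u ≠ 0) :
    (A.filter (fun p => 0 ≤ φ p)).card ≤ (A.filter (fun p => 0 < φ p)).card + 3 := by
  classical
  have h1 := hS.zeros_le hφ hu hA
  have h2 : A.filter (fun p => 0 ≤ φ p) ⊆
      A.filter (fun p => 0 < φ p) ∪ A.filter (fun p => φ p = 0) := by
    intro p hp
    simp only [mem_filter, mem_union] at *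
    rcases eq_or_lt_of_le hp.2 with h | h
    · exact Or.inr ⟨hp.1, h.symm⟩
    · exact Or.inl ⟨hp.1, h⟩
  have h3 := (card_le_card h2).trans (card_union_le _ _)
  omega

/-- a plane through a centerpoint leaves a quarter on each open side -/
lemma center_side {S A : Finset Pt} (hS : GP S) (hA : A ⊆ S) :
    ∃ o : Pt, ∀ φ : Pt → ℝ, IsAff φ → φ o = 0 → (∃ u, φ u ≠ 0) →
      A.card + 4 ≤ 4 * ((A.filter (fun p => 0 < φ p)).card + 4) ∧
      A.card + 4 ≤ 4 * ((A.filter (fun p => φ p < 0)).card + 4) := by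
  obtain ⟨o, ho⟩ := exists_center A
  refine ⟨o, fun φ hφ h0 ⟨u, hu⟩ => ⟨?_, ?_⟩⟩
  · have := ho φ hφ h0
    have := side_card hS hA hφ hu
    omega
  · have h1 := ho (fun p => - φ p) hφ.neg (by simp [h0])
    have h2 := side_card hS hA hφ.neg (u := u) (by simpa using hu)
    have h3 : A.filter (fun p => 0 < - φ p) = A.filter (fun p => φ p < 0) := by
      ext p; simp
    rw [h3] at h2
    omega

lemma major_side {S A : Finset Pt} (hS : GP S) (hA : A ⊆ S) {φ : Pt → ℝ} (hφ : IsAff φ) {u : Pt}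
    (hu : φ u ≠ 0) :
    A.card + 4 ≤ 4 * ((A.filter (fun p => 0 < φ p)).card + 4) ∨
      A.card + 4 ≤ 4 * ((A.filter (fun p => φ p < 0)).card + 4) := by
  have h1 := side_card hS hA hφ hu
  have h2 := card_filter_add_card_filter_not (s := A) (fun p => 0 ≤ φ p)
  have h3 : A.filter (fun p => ¬ 0 ≤ φ p) = A.filter (fun p => φ p < 0) := by
    ext p; simp
  rw [h3] at h2
  omega

/-- iterating shrinking steps -/
lemma shrink_iter {ι τ : Type*} [DecidableEq τ] (S : Finset Pt) (L : ℕ)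
    (Q : τ → (ι → Finset Pt) → Prop)
    (hher : ∀ t A B, (∀ i, B i ⊆ A i) → Q t A → Q t B)
    (hstep : ∀ t (A : ι → Finset Pt), (∀ i, A i ⊆ S) → ∃ B : ι → Finset Pt, (∀ i, B i ⊆ A i) ∧
      Q t B ∧ ∀ i, (A i).card + 4 ≤ L * ((B i).card + 4))
    (T : Finset τ) (A : ι → Finset Pt) (hA : ∀ i, A i ⊆ S) :
    ∃ B : ι → Finset Pt, (∀ i, B i ⊆ A i) ∧ (∀ t ∈ T, Q t B) ∧
      ∀ i, (A i).card + 4 ≤ L ^ T.card * ((B i).card + 4) := by
  induction T using Finset.induction_on with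
  | empty => exact ⟨A, fun _ => Subset.rfl, by simp, by simp⟩
  | insert t T ht ih =>
    obtain ⟨B, hB, hQ, hc⟩ := ih
    obtain ⟨B', hB', hQ', hc'⟩ := hstep t B (fun i => (hB i).trans (hA i))
    refine ⟨B', fun i => (hB' i).trans (hB i), ?_, ?_⟩
    · intro t' ht'
      rcases mem_insert.1 ht' with rfl | h
      · exact hQ'
      · exact hher _ _ _ hB' (hQ t' h)
    · intro i
      rw [card_insert_of_notMem ht, pow_succ, mul_assoc]
      exact (hc i).trans (Nat.mul_le_mul_left _ (hc' i))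

/-- one separation step for four sets -/
lemma sep_step {S : Finset Pt} (hS : GP S) (I : Finset (Fin 4)) (A : Fin 4 → Finset Pt)
    (hA : ∀ i, A i ⊆ S) :
    ∃ B : Fin 4 → Finset Pt, (∀ i, B i ⊆ A i) ∧
      (∃ φ : Pt → ℝ, IsAff φ ∧ (∀ i ∈ I, ∀ a ∈ B i, 0 < φ a) ∧ ∀ i ∉ I, ∀ a ∈ B i, φ a < 0) ∧
      ∀ i, (A i).card + 4 ≤ 4 * ((B i).card + 4) := by
  classical
  obtain ⟨o0, h0⟩ := center_side hS (hA 0)
  obtain ⟨o1, h1⟩ := center_side hS (hA 1)
  obtain ⟨o2, h2⟩ := center_side hS (hA 2)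
  obtain ⟨φ, hφ, e0, e1, e2, u, hu⟩ := exists_plane o0 o1 o2
  -- choose the sign so that the fourth set is on the right side
  have key : ∃ ψ : Pt → ℝ, IsAff ψ ∧ ψ o0 = 0 ∧ ψ o1 = 0 ∧ ψ o2 = 0 ∧ ψ u ≠ 0 ∧
      ((3 : Fin 4) ∈ I → (A 3).card + 4 ≤ 4 * (((A 3).filter (fun p => 0 < ψ p)).card + 4)) ∧
      ((3 : Fin 4) ∉ I → (A 3).card + 4 ≤ 4 * (((A 3).filter (fun p => ψ p < 0)).card + 4)) := by
    have hn1 : (A 3).filter (fun p => 0 < - φ p) = (A 3).filter (fun p => φ p < 0) := by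
      ext p; simp
    have hn2 : (A 3).filter (fun p => - φ p < 0) = (A 3).filter (fun p => 0 < φ p) := by
      ext p; simp
    rcases major_side hS (hA 3) hφ hu with h | h
    · by_cases h3 : (3 : Fin 4) ∈ I
      · exact ⟨φ, hφ, e0, e1, e2, hu, fun _ => h, fun h' => absurd h3 h'⟩
      · exact ⟨fun p => - φ p, hφ.neg, by simp [e0], by simp [e1], by simp [e2], by simpa using hu,
          fun h' => absurd h' h3, fun _ => by rw [hn2]; exact h⟩
    · by_cases h3 : (3 : Fin 4) ∈ I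
      · exact ⟨fun p => - φ p, hφ.neg, by simp [e0], by simp [e1], by simp [e2], by simpa using hu,
          fun _ => by rw [hn1]; exact h, fun h' => absurd h3 h'⟩
      · exact ⟨φ, hφ, e0, e1, e2, hu, fun h' => absurd h' h3, fun _ => h⟩
  obtain ⟨ψ, hψ, f0, f1, f2, fu, g1, g2⟩ := key
  refine ⟨fun i => if i ∈ I then (A i).filter (fun p => 0 < ψ p) else (A i).filter (fun p => ψ p < 0),
    ?_, ⟨ψ, hψ, ?_, ?_⟩, ?_⟩
  · intro i; beta_reduce; split_ifs <;> exact filter_subset _ _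
  · intro i hi a ha; simp only [hi, if_true] at ha; exact (mem_filter.1 ha).2
  · intro i hi a ha; simp only [hi, if_false] at ha; exact (mem_filter.1 ha).2
  · intro i
    have k0 := h0 ψ hψ f0 ⟨u, fu⟩
    have k1 := h1 ψ hψ f1 ⟨u, fu⟩
    have k2 := h2 ψ hψ f2 ⟨u, fu⟩
    by_cases hi : i ∈ I
    · simp only [hi, if_true]
      fin_cases i
      · exact k0.1
      · exact k1.1
      · exact k2.1
      · exact g1 hi
    · simp only [hi, if_false]
      fin_cases i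
      · exact k0.2
      · exact k1.2
      · exact k2.2
      · exact g2 hi

/-- well separated quadruple: no plane meets all four convex hulls -/
def WS (A B C E : Finset Pt) : Prop :=
  ∀ a ∈ convexHull ℝ (A : Set Pt), ∀ b ∈ convexHull ℝ (B : Set Pt),
    ∀ c ∈ convexHull ℝ (C : Set Pt), ∀ e ∈ convexHull ℝ (E : Set Pt), D a b c e ≠ 0

lemma WS.mono {A B C E A' B' C' E' : Finset Pt} (h : WS A B C E) (hA : A' ⊆ A) (hB : B' ⊆ B)
    (hC : C' ⊆ C) (hE : E' ⊆ E) : WS A' B' C' E' := fun a ha b hb c hc e he =>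
  h a (convexHull_mono (by exact_mod_cast hA) ha) b (convexHull_mono (by exact_mod_cast hB) hb)
    c (convexHull_mono (by exact_mod_cast hC) hc) e (convexHull_mono (by exact_mod_cast hE) he)

lemma WS.sign {A B C E : Finset Pt} (h : WS A B C E) {a a' b b' c c' e e' : Pt}
    (ha : a ∈ convexHull ℝ (A : Set Pt)) (ha' : a' ∈ convexHull ℝ (A : Set Pt))
    (hb : b ∈ convexHull ℝ (B : Set Pt)) (hb' : b' ∈ convexHull ℝ (B : Set Pt))
    (hc : c ∈ convexHull ℝ (C : Set Pt)) (hc' : c' ∈ convexHull ℝ (C : Set Pt))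
    (he : e ∈ convexHull ℝ (E : Set Pt)) (he' : e' ∈ convexHull ℝ (E : Set Pt))
    {κ : ℝ} (hκ : 0 < κ * D a b c e) : 0 < κ * D a' b' c' e' := by
  have step : ∀ {x y : ℝ}, 0 < κ * x → 0 < x * y → 0 < κ * y := by
    intro x y h1 h2
    have h3 : 0 < (κ * y) * (x * x) := by
      have := mul_pos h1 h2
      linarith
    have h4 : 0 < x * x := by
      apply mul_self_pos.2
      rintro rfl; simp at h1
    exact (mul_pos_iff_of_pos_right h4).1 h3
  have s1 := (isAff_D1 b c e).same_sign (convex_convexHull ℝ _)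
    (fun z hz => h z hz b hb c hc e he) ha ha'
  have s2 := (isAff_D2 a' c e).same_sign (convex_convexHull ℝ _)
    (fun z hz => h a' ha' z hz c hc e he) hb hb'
  have s3 := (isAff_D3 a' b' e).same_sign (convex_convexHull ℝ _)
    (fun z hz => h a' ha' b' hb' z hz e he) hc hc'
  have s4 := (isAff_D4 a' b' c').same_sign (convex_convexHull ℝ _)
    (fun z hz => h a' ha' b' hb' c' hc' z hz) he he'
  exact step (step (step (step hκ s1) s2) s3) s4

lemma exists_dep (p : Fin 4 → Pt) (h : D (p 0) (p 1) (p 2) (p 3) = 0) :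
    ∃ l : Fin 4 → ℝ, (∃ i, 0 < l i) ∧ ∀ φ : Pt → ℝ, IsAff φ → ∑ i, l i * φ (p i) = 0 := by
  let N : Matrix (Fin 3) (Fin 3) ℝ := fun i j => p i.succ j - p 0 j
  have hd : N.det = 0 := by
    rw [Matrix.det_fin_three]
    simp only [N]
    unfold D at h
    simp only [Fin.succ_zero_eq_one, Fin.succ_one_eq_two, Fin.reduceSucc]
    linear_combination h
  obtain ⟨v, hv0, hv⟩ := Matrix.exists_vecMul_eq_zero_iff.2 hd
  have c0 := congrFun hv 0
  have c1 := congrFun hv 1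
  have c2 := congrFun hv 2
  simp only [Matrix.vecMul, dotProduct, Fin.sum_univ_three, N, Pi.zero_apply,
    Fin.succ_zero_eq_one, Fin.succ_one_eq_two, Fin.reduceSucc] at c0 c1 c2
  refine ⟨![-(v 0 + v 1 + v 2), v 0, v 1, v 2], ?_, ?_⟩
  · by_contra hc
    push Not at hc
    have a0 := hc 0
    have a1 := hc 1
    have a2 := hc 2
    have a3 := hc 3
    simp at a0 a1 a2 a3
    apply hv0
    ext i
    fin_cases i <;> simp <;> linarith
  · rintro φ ⟨w0, w1, w2, k, hφ⟩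
    simp only [Fin.sum_univ_four, hφ]
    simp
    linear_combination w0 * c0 + w1 * c1 + w2 * c2

lemma ws_four {S : Finset Pt} (hS : GP S) (A : Fin 4 → Finset Pt) (hA : ∀ i, A i ⊆ S) :
    ∃ B : Fin 4 → Finset Pt, (∀ i, B i ⊆ A i) ∧ WS (B 0) (B 1) (B 2) (B 3) ∧
      ∀ i, (A i).card + 4 ≤ 4 ^ 16 * ((B i).card + 4) := by
  classical
  obtain ⟨B, hB, hQ, hc⟩ := shrink_iter (ι := Fin 4) (τ := Finset (Fin 4)) S 4
    (fun I B => ∃ φ : Pt → ℝ, IsAff φ ∧ (∀ i ∈ I, ∀ a ∈ B i, 0 < φ a) ∧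
      ∀ i ∉ I, ∀ a ∈ B i, φ a < 0)
    (fun I A B hB ⟨φ, hφ, h1, h2⟩ => ⟨φ, hφ, fun i hi a ha => h1 i hi a (hB i ha),
      fun i hi a ha => h2 i hi a (hB i ha)⟩)
    (fun I A hA => sep_step hS I A hA) univ A hA
  refine ⟨B, hB, ?_, ?_⟩
  · intro a ha b hb c hc e he hD
    obtain ⟨l, ⟨i0, hi0⟩, hl⟩ := exists_dep ![a, b, c, e] (by simpa using hD)
    obtain ⟨φ, hφ, h1, h2⟩ := hQ (univ.filter (fun i => 0 < l i)) (mem_univ _)
    have hm : ∀ i, (![a, b, c, e] : Fin 4 → Pt) i ∈ convexHull ℝ (B i : Set Pt) := by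
      intro i; fin_cases i
      · exact ha
      · exact hb
      · exact hc
      · exact he
    have hpos : 0 < ∑ i, l i * φ ((![a, b, c, e] : Fin 4 → Pt) i) := by
      apply sum_pos'
      · intro i _
        by_cases hi : 0 < l i
        · exact (mul_pos hi (hφ.hull_pos (fun a ha => h1 i (by simp [hi]) a ha) (hm i))).le
        · exact mul_nonneg_of_nonpos_of_nonpos (not_lt.1 hi)
            (hφ.hull_neg (fun a ha => h2 i (by simp [hi]) a ha) (hm i)).le
      · exact ⟨i0, mem_univ _,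
          mul_pos hi0 (hφ.hull_pos (fun a ha => h1 i0 (by simp [hi0]) a ha) (hm i0))⟩
    rw [hl φ hφ] at hpos
    exact lt_irrefl _ hpos
  · intro i
    have := hc i
    simpa using this

/-- well separation of a list of quadruples of a family -/
lemma ws_family {ι : Type*} [DecidableEq ι] {S : Finset Pt} (hS : GP S)
    (T : Finset (ι × ι × ι × ι)) (A : ι → Finset Pt) (hA : ∀ i, A i ⊆ S) :
    ∃ B : ι → Finset Pt, (∀ i, B i ⊆ A i) ∧
      (∀ a b c e, (a, b, c, e) ∈ T → a ≠ b → a ≠ c → a ≠ e → b ≠ c → b ≠ e → c ≠ e →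
        WS (B a) (B b) (B c) (B e)) ∧
      ∀ i, (A i).card + 4 ≤ (4 ^ 16) ^ T.card * ((B i).card + 4) := by
  obtain ⟨B, hB, hQ, hc⟩ := shrink_iter (ι := ι) (τ := ι × ι × ι × ι) S (4 ^ 16)
    (fun t B => t.1 ≠ t.2.1 → t.1 ≠ t.2.2.1 → t.1 ≠ t.2.2.2 → t.2.1 ≠ t.2.2.1 → t.2.1 ≠ t.2.2.2 →
      t.2.2.1 ≠ t.2.2.2 → WS (B t.1) (B t.2.1) (B t.2.2.1) (B t.2.2.2))
    (fun t A B hB h h1 h2 h3 h4 h5 h6 => (h h1 h2 h3 h4 h5 h6).mono (hB _) (hB _) (hB _) (hB _))
    (by
      rintro ⟨a, b, c, e⟩ A hA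
      by_cases hd : a ≠ b ∧ a ≠ c ∧ a ≠ e ∧ b ≠ c ∧ b ≠ e ∧ c ≠ e
      · obtain ⟨h1, h2, h3, h4, h5, h6⟩ := hd
        obtain ⟨B, hB, hW, hc⟩ := ws_four hS ![A a, A b, A c, A e]
          (by intro i; fin_cases i <;> exact hA _)
        refine ⟨fun i => if i = a then B 0 else if i = b then B 1 else if i = c then B 2 else
          if i = e then B 3 else A i, ?_, ?_, ?_⟩
        · intro i
          beta_reduce
          split_ifs with k1 k2 k3 k4
          · rw [k1]; exact hB 0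
          · rw [k2]; exact hB 1
          · rw [k3]; exact hB 2
          · rw [k4]; exact hB 3
          · exact Subset.rfl
        · intro _ _ _ _ _ _
          simp only [if_true, h1.symm, h2.symm, h3.symm, h4.symm, h5.symm, h6.symm, if_false]
          exact hW
        · intro i
          beta_reduce
          split_ifs with k1 k2 k3 k4
          · rw [k1]; exact hc 0
          · rw [k2]; exact hc 1
          · rw [k3]; exact hc 2
          · rw [k4]; exact hc 3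
          · omega
      · refine ⟨A, fun _ => Subset.rfl, ?_, fun i => by omega⟩
        intro h1 h2 h3 h4 h5 h6
        exact absurd ⟨h1, h2, h3, h4, h5, h6⟩ hd) T A hA
  exact ⟨B, hB, fun a b c e h => hQ _ h, hc⟩

/-- shrinking a set so that its hull misses all lines through two points of `C` -/
lemma avoid_lines {S : Finset Pt} (hS : GP S) (C X : Finset Pt) (hX : X ⊆ S) :
    ∃ Y ⊆ X, (∀ c ∈ C, ∀ c' ∈ C, ∃ φ : Pt → ℝ, IsAff φ ∧ φ c = 0 ∧ φ c' = 0 ∧ ∀ x ∈ Y, 0 < φ x) ∧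
      X.card + 4 ≤ 4 ^ (C.card * C.card) * (Y.card + 4) := by
  classical
  obtain ⟨B, hB, hQ, hc⟩ := shrink_iter (ι := Unit) (τ := Pt × Pt) S 4
    (fun t B => ∃ φ : Pt → ℝ, IsAff φ ∧ φ t.1 = 0 ∧ φ t.2 = 0 ∧ ∀ x ∈ B (), 0 < φ x)
    (fun t A B hB ⟨φ, h1, h2, h3, h4⟩ => ⟨φ, h1, h2, h3, fun x hx => h4 x (hB () hx)⟩)
    (by
      intro t A hA
      obtain ⟨o, ho⟩ := center_side hS (hA ())
      obtain ⟨φ, hφ, e0, e1, e2, hu⟩ := exists_plane t.1 t.2 o
      exact ⟨fun _ => (A ()).filter (fun p => 0 < φ p), fun _ => filter_subset _ _,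
        ⟨φ, hφ, e0, e1, fun x hx => (mem_filter.1 hx).2⟩, fun _ => (ho φ hφ e2 hu).1⟩)
    (C ×ˢ C) (fun _ => X) (fun _ => hX)
  refine ⟨B (), hB (), fun c hc c' hc' => hQ (c, c') (mem_product.2 ⟨hc, hc'⟩), ?_⟩
  have := hc ()
  rwa [card_product] at this

end Pool.Agent.P.MP_358d01_co.H51
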