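import Pool.Agent.P.MP_358d01_co.H51.Step

set_option autoImplicit false

namespace Pool.Agent.P.MP_358d01_co.H51

open Finset

lemma Lam_le {m : ℕ} (hm : 1 ≤ m) : Lam m ≤ 2 ^ (195 * m ^ 3) := by
  unfold Lam
  have h1 : 1 ≤ m ^ 3 := Nat.one_le_pow _ _ hm
  calc 5 * (4 ^ 16) ^ (6 * m ^ 3) ≤ 2 ^ 3 * (2 ^ 32) ^ (6 * m ^ 3) := by
        apply Nat.mul_le_mul <;> norm_num
    _ = 2 ^ (3 + 32 * (6 * m ^ 3)) := by rw [← pow_mul, ← pow_add]
    _ ≤ _ := Nat.pow_le_pow_right (by norm_num) (by omega)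

lemma size_le {m n a l μ : ℕ} (hm : 1 ≤ m) (ha : a ≤ n) (hl : n < 2 ^ l) :
    Gg m n ^ m * Bb m μ (((a + n).choose a) ^ 8) ≤
      2 ^ ((195 * m ^ 3 + (3 + l * 4)) * m +
        (1 + (35 + (195 * m ^ 3 * m + (l + 1) * a * 8)) * (12 * μ + 21))) := by
  have h1 := Lam_le hm
  have h2 : (a + n).choose a ≤ 2 ^ ((l + 1) * a) := by
    refine (Nat.choose_le_pow _ _).trans ?_
    rw [pow_mul]
    exact Nat.pow_le_pow_left (by rw [pow_succ]; omega) _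
  have h3 : Gg m n ≤ 2 ^ (195 * m ^ 3 + (3 + l * 4)) := by
    unfold Gg
    rw [pow_add, pow_add, pow_mul 2 l]
    exact Nat.mul_le_mul h1 (Nat.mul_le_mul (by norm_num) (Nat.pow_le_pow_left hl.le _))
  have h4 : Om m (((a + n).choose a) ^ 8) ≤ 2 ^ (35 + (195 * m ^ 3 * m + (l + 1) * a * 8)) := by
    unfold Om
    rw [pow_add, pow_add, pow_mul 2 (195 * m ^ 3) m, pow_mul 2 ((l + 1) * a) 8]
    exact Nat.mul_le_mul (by norm_num)
      (Nat.mul_le_mul (Nat.pow_le_pow_left h1 _) (Nat.pow_le_pow_left h2 _))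
  unfold Bb
  rw [pow_add 2, pow_add 2 1, pow_mul 2 _ m, pow_mul 2 _ (12 * μ + 21)]
  exact Nat.mul_le_mul (Nat.pow_le_pow_left h3 _)
    (Nat.mul_le_mul (by norm_num) (Nat.pow_le_pow_left h4 _))

lemma expo_le {m a l M K : ℕ} (hm : 1 ≤ m) (hl : 1 ≤ l) (hmM : m ^ 4 ≤ K * M)
    (haM : a ≤ K * M) :
    (195 * m ^ 3 + (3 + l * 4)) * m +
        (1 + (35 + (195 * m ^ 3 * m + (l + 1) * a * 8)) * (12 * (22 + l) + 21)) ≤
      (80000 * K) * M * l ^ 2 := by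
  have hK : 1 ≤ K * M := le_trans (Nat.one_le_pow _ _ hm) hmM
  have e1 : m ≤ K * M := le_trans (Nat.le_self_pow (by norm_num) m) hmM
  have e2 : m ^ 3 * m ≤ K * M := by rw [← pow_succ]; exact hmM
  set X := K * M with hX
  have l2 : l ≤ l ^ 2 := Nat.le_self_pow (by norm_num) l
  have xl : X ≤ X * l := Nat.le_mul_of_pos_right _ hl
  have f1 : 35 + (195 * m ^ 3 * m + (l + 1) * a * 8) ≤ 246 * (X * l) := by
    have : (l + 1) * a ≤ (2 * l) * X := Nat.mul_le_mul (by omega) haM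
    have e3 : 195 * m ^ 3 * m = 195 * (m ^ 3 * m) := by ring
    have e4 : 2 * l * X = 2 * (X * l) := by ring
    omega
  have f2 : (35 + (195 * m ^ 3 * m + (l + 1) * a * 8)) * (12 * (22 + l) + 21) ≤
      (246 * (X * l)) * (297 * l) := Nat.mul_le_mul f1 (by omega)
  have f3 : (3 + l * 4) * m ≤ (7 * l) * X := Nat.mul_le_mul (by omega) e1
  have xl2 : X * l ≤ X * l ^ 2 := Nat.mul_le_mul_left _ l2
  have e5 : (246 * (X * l)) * (297 * l) = 73062 * (X * l ^ 2) := by ring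
  have e6 : (195 * m ^ 3 + (3 + l * 4)) * m = 195 * (m ^ 3 * m) + (3 + l * 4) * m := by ring
  have e7 : 7 * l * X = 7 * (X * l) := by ring
  have e8 : 80000 * K * M * l ^ 2 = 80000 * (X * l ^ 2) := by rw [hX]; ring
  omega

theorem bound3 : ∃ K : ℕ, ∀ n b l : ℕ, 1 ≤ b → b ^ 33 ≤ n → n < (b + 1) ^ 33 → n < 2 ^ l →
    ∀ S : Finset Pt, GP S → NC n S → S.card < 2 ^ (K * b ^ 32 * l ^ 2) := by
  refine ⟨80000 * 2 ^ 88, fun n b l hb h1 h2 h3 S hS hN => ?_⟩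
  have hn1 : 1 ≤ n := le_trans (Nat.one_le_pow _ _ hb) h1
  have hl : 1 ≤ l := by
    rcases Nat.eq_zero_or_pos l with h | h
    · rw [h] at h3; omega
    · exact h
  set m := 2 * ((3 * b + 3) ^ 4 + 1) ^ 2 + 2 with hm
  have hb4 : 1 ≤ b ^ 4 := Nat.one_le_pow _ _ hb
  have hb8 : 1 ≤ b ^ 8 := Nat.one_le_pow _ _ hb
  have hmb : m ≤ 2 ^ 22 * b ^ 8 := by
    have a1 : (3 * b + 3) ^ 4 ≤ (6 * b) ^ 4 := Nat.pow_le_pow_left (by omega) _
    have a2 : (6 * b) ^ 4 = 1296 * b ^ 4 := by ring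
    have a3 : ((3 * b + 3) ^ 4 + 1) ^ 2 ≤ (1297 * b ^ 4) ^ 2 := Nat.pow_le_pow_left (by omega) _
    have a4 : (1297 * b ^ 4) ^ 2 = 1682209 * b ^ 8 := by ring
    omega
  have hμ : m ≤ 2 ^ (22 + l) := by
    have : b ^ 8 ≤ b ^ 33 := Nat.pow_le_pow_right hb (by norm_num)
    rw [pow_add]
    exact hmb.trans (Nat.mul_le_mul_left _ (by omega))
  have ha : n ≤ b * (n / b + 2) := by
    have := Nat.lt_mul_div_succ n (show 0 < b from hb)
    rw [mul_add] at this ⊢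
    omega
  refine (main3 hS hN hn1 ha hm hμ).trans_le ((size_le (by omega) (Nat.div_le_self _ _) h3).trans
    (Nat.pow_le_pow_right (by norm_num) (expo_le (by omega) hl ?_ ?_)))
  · calc m ^ 4 ≤ (2 ^ 22 * b ^ 8) ^ 4 := Nat.pow_le_pow_left hmb _
      _ = _ := by ring
  · have a1 : (b + 1) ^ 33 ≤ (2 * b) ^ 33 := Nat.pow_le_pow_left (by omega) _
    have a2 : (2 * b) ^ 33 = b * (2 ^ 33 * b ^ 32) := by ring
    have a3 : n / b ≤ 2 ^ 33 * b ^ 32 := Nat.div_le_of_le_mul (by omega)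
    exact a3.trans (Nat.mul_le_mul_right _ (by norm_num))

theorem bound3_real : ∃ C : ℝ, ∀ n : ℕ, 3 ≤ n → ∀ S : Finset Pt, GP S → NC n S →
    (S.card : ℝ) < Real.exp (C * (n : ℝ) ^ ((32 : ℝ) / 33) * Real.log n ^ 2) := by
  obtain ⟨K, hK⟩ := bound3
  refine ⟨9 * K, fun n hn S hS hN => ?_⟩
  obtain ⟨b, h1, h2⟩ : ∃ b : ℕ, b ^ 33 ≤ n ∧ n < (b + 1) ^ 33 :=
    ⟨Nat.nthRoot 33 n, Nat.pow_nthRoot_le (Or.inl (by norm_num)),
      Nat.lt_pow_nthRoot_add_one (by norm_num) n⟩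
  have hb1 : 1 ≤ b := by
    rcases Nat.eq_zero_or_pos b with h | h
    · rw [h] at h2; omega
    · exact h
  have h3 := hK n b (Nat.log 2 n + 1) hb1 h1 h2 (Nat.lt_pow_succ_log_self (by norm_num) n) S hS hN
  have hn' : (3 : ℝ) ≤ n := by exact_mod_cast hn
  have hlog1 : 1 ≤ Real.log n := by
    rw [Real.le_log_iff_exp_le (by linarith)]
    have := Real.exp_one_lt_d9
    linarith
  have hl : ((Nat.log 2 n + 1 : ℕ) : ℝ) ≤ 3 * Real.log n := by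
    have a1 : (2 : ℝ) ^ (Nat.log 2 n) ≤ n := by
      exact_mod_cast Nat.pow_log_le_self 2 (by omega : n ≠ 0)
    have a2 := Real.log_le_log (pow_pos two_pos _) a1
    rw [Real.log_pow] at a2
    have a3 := Real.log_two_gt_d9
    have a4 : (0 : ℝ) ≤ Nat.log 2 n := Nat.cast_nonneg _
    have a5 := mul_le_mul_of_nonneg_left (show (1 / 2 : ℝ) ≤ Real.log 2 by linarith) a4
    push_cast
    linarith
  have hbr : (b : ℝ) ^ 32 ≤ (n : ℝ) ^ ((32 : ℝ) / 33) := by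
    have a1 : ((b : ℝ) ^ 33) ≤ n := by exact_mod_cast h1
    have b0 : (0 : ℝ) ≤ b := Nat.cast_nonneg b
    have a2 := Real.rpow_le_rpow (pow_nonneg b0 33) a1 (show (0 : ℝ) ≤ 32 / 33 by norm_num)
    rw [← Real.rpow_natCast, ← Real.rpow_mul b0,
      show ((33 : ℕ) : ℝ) * (32 / 33) = ((32 : ℕ) : ℝ) by norm_num, Real.rpow_natCast] at a2
    exact a2
  have h4 : (S.card : ℝ) < 2 ^ (K * b ^ 32 * (Nat.log 2 n + 1) ^ 2) := by exact_mod_cast h3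
  refine h4.trans_le ?_
  have h5 : (2 : ℝ) ≤ Real.exp 1 := by have := Real.add_one_le_exp (1 : ℝ); linarith
  refine (pow_le_pow_left₀ (by norm_num) h5 _).trans ?_
  rw [← Real.exp_nat_mul, mul_one, Real.exp_le_exp]
  have h6 : (((Nat.log 2 n + 1 : ℕ) : ℝ)) ^ 2 ≤ (3 * Real.log n) ^ 2 :=
    pow_le_pow_left₀ (Nat.cast_nonneg _) hl 2
  calc ((K * b ^ 32 * (Nat.log 2 n + 1) ^ 2 : ℕ) : ℝ)
      = K * (b : ℝ) ^ 32 * (((Nat.log 2 n + 1 : ℕ) : ℝ)) ^ 2 := by push_cast; ring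
    _ ≤ K * (n : ℝ) ^ ((32 : ℝ) / 33) * (3 * Real.log n) ^ 2 :=
        mul_le_mul (mul_le_mul_of_nonneg_left hbr (Nat.cast_nonneg _)) h6 (sq_nonneg _)
          (mul_nonneg (Nat.cast_nonneg _) (Real.rpow_nonneg (Nat.cast_nonneg _) _))
    _ = _ := by ring

end Pool.Agent.P.MP_358d01_co.H51
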