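import Mathlib

set_option autoImplicit false

namespace Pool.Agent.P.MP_358d01_co.H51

open Finset

/-- a chain of length `s` for the relation `r` inside `X` -/
def Chain {α : Type*} (r : α → α → Prop) (X : Finset α) (s : ℕ) : Prop :=
  ∃ f : ℕ → α, (∀ i < s, f i ∈ X) ∧ ∀ i j, i < j → j < s → r (f i) (f j)

lemma Chain.mono {α : Type*} {r : α → α → Prop} {X Y : Finset α} {s : ℕ} (h : Chain r X s)
    (hXY : X ⊆ Y) : Chain r Y s := by
  obtain ⟨f, h1, h2⟩ := h
  exact ⟨f, fun i hi => hXY (h1 i hi), h2⟩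

lemma mirsky {α : Type*} (r : α → α → Prop) (s : ℕ) (X : Finset α)
    (htr : ∀ x ∈ X, ∀ y ∈ X, ∀ z ∈ X, r x y → r y z → r x z) (hno : ¬ Chain r X (s + 1)) :
    ∃ Y ⊆ X, (∀ x ∈ Y, ∀ y ∈ Y, ¬ r x y) ∧ X.card ≤ s * Y.card := by
  classical
  induction s generalizing X with
  | zero =>
    refine ⟨∅, empty_subset _, by simp, ?_⟩
    rcases X.eq_empty_or_nonempty with h | ⟨x, hx⟩
    · simp [h]
    · exact absurd ⟨fun _ => x, fun _ _ => hx, fun i j h1 h2 => by omega⟩ hno
  | succ s ih =>
    obtain ⟨Y, hY, hanti, hc⟩ := ih (X.filter (fun x => ∃ y ∈ X, r y x))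
      (fun x hx y hy z hz => htr x (mem_filter.1 hx).1 y (mem_filter.1 hy).1 z (mem_filter.1 hz).1)
      (by
        rintro ⟨f, h1, h2⟩
        obtain ⟨y, hy, hr⟩ := (mem_filter.1 (h1 0 (by omega))).2
        refine hno ⟨fun i => if i = 0 then y else f (i - 1), ?_, ?_⟩
        · intro i hi
          beta_reduce
          split_ifs with h
          · exact hy
          · exact (mem_filter.1 (h1 _ (by omega))).1
        · intro i j hij hj
          have hj0 : j ≠ 0 := by omega
          simp only [hj0, if_false]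
          split_ifs with h
          · by_cases h1' : j - 1 = 0
            · rw [h1']; exact hr
            · exact htr _ hy _ (mem_filter.1 (h1 0 (by omega))).1 _
                (mem_filter.1 (h1 _ (by omega))).1 hr (h2 0 _ (by omega) (by omega))
          · exact h2 _ _ (by omega) (by omega))
    have hs := card_filter_add_card_filter_not (s := X) (fun x => ∃ y ∈ X, r y x)
    by_cases hle : (X.filter (fun x => ¬ ∃ y ∈ X, r y x)).card ≤ Y.card
    · refine ⟨Y, hY.trans (filter_subset _ _), hanti, ?_⟩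
      rw [add_mul]; omega
    · refine ⟨X.filter (fun x => ¬ ∃ y ∈ X, r y x), filter_subset _ _, ?_, ?_⟩
      · intro x hx y hy hr
        exact (mem_filter.1 hy).2 ⟨x, (mem_filter.1 hx).1, hr⟩
      · have := Nat.mul_le_mul_left s (not_le.1 hle).le
        rw [add_mul]; omega

lemma mirsky_iter {α κ : Type*} (K : Finset κ) (r : κ → α → α → Prop) (s : ℕ) (X : Finset α)
    (htr : ∀ k ∈ K, ∀ x ∈ X, ∀ y ∈ X, ∀ z ∈ X, r k x y → r k y z → r k x z)
    (hno : ∀ k ∈ K, ¬ Chain (r k) X (s + 1)) :
    ∃ Y ⊆ X, (∀ k ∈ K, ∀ x ∈ Y, ∀ y ∈ Y, ¬ r k x y) ∧ X.card ≤ s ^ K.card * Y.card := by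
  classical
  induction K using Finset.induction_on with
  | empty => exact ⟨X, Subset.rfl, by simp, by simp⟩
  | insert k K hk ih =>
    obtain ⟨Y, hY, hanti, hc⟩ := ih (fun k' hk' => htr k' (mem_insert_of_mem hk'))
      (fun k' hk' => hno k' (mem_insert_of_mem hk'))
    obtain ⟨Z, hZ, hanti', hc'⟩ := mirsky (r k) s Y
      (fun x hx y hy z hz => htr k (mem_insert_self _ _) x (hY hx) y (hY hy) z (hY hz))
      (fun h => hno k (mem_insert_self _ _) (h.mono hY))
    refine ⟨Z, hZ.trans hY, ?_, ?_⟩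
    · intro k' hk' x hx y hy
      rcases mem_insert.1 hk' with rfl | h
      · exact hanti' x hx y hy
      · exact hanti k' h x (hZ hx) y (hZ hy)
    · rw [card_insert_of_notMem hk, pow_succ, mul_assoc]
      exact hc.trans (Nat.mul_le_mul_left _ hc')

lemma exists_top {α : Type*} (r : α → α → Prop) (X : Finset α) (hne : X.Nonempty)
    (htr : ∀ x ∈ X, ∀ y ∈ X, ∀ z ∈ X, r x y → r y z → r x z)
    (htot : ∀ x ∈ X, ∀ y ∈ X, x ≠ y → r x y ∨ r y x) : ∃ c ∈ X, ∀ b ∈ X, b ≠ c → r b c := by
  classical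
  induction X using Finset.induction_on with
  | empty => simp at hne
  | insert a X ha ih =>
    rcases X.eq_empty_or_nonempty with h | h
    · subst h; exact ⟨a, by simp, by simp⟩
    obtain ⟨c, hc, htop⟩ := ih h
      (fun x hx y hy z hz => htr x (mem_insert_of_mem hx) y (mem_insert_of_mem hy) z
        (mem_insert_of_mem hz))
      (fun x hx y hy => htot x (mem_insert_of_mem hx) y (mem_insert_of_mem hy))
    have hac : a ≠ c := by rintro rfl; exact ha hc
    rcases htot a (mem_insert_self _ _) c (mem_insert_of_mem hc) hac with h1 | h1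
    · refine ⟨c, mem_insert_of_mem hc, fun b hb hbc => ?_⟩
      rcases mem_insert.1 hb with rfl | hb
      · exact h1
      · exact htop b hb hbc
    · refine ⟨a, mem_insert_self _ _, fun b hb hba => ?_⟩
      rcases mem_insert.1 hb with rfl | hb
      · exact absurd rfl hba
      · by_cases hbc : b = c
        · rw [hbc]; exact h1
        · exact htr b (mem_insert_of_mem hb) c (mem_insert_of_mem hc) a (mem_insert_self _ _)
            (htop b hb hbc) h1

lemma two_colour (r : ℕ → ℕ → Prop) (J : Finset ℕ) (t : ℕ) (hJ : t * t ≤ J.card)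
    (htr : ∀ i ∈ J, ∀ j ∈ J, ∀ k ∈ J, i < j → j < k → r i j → r j k → r i k) :
    ∃ K ⊆ J, t ≤ K.card ∧ ((∀ i ∈ K, ∀ j ∈ K, i < j → r i j) ∨
      (∀ i ∈ K, ∀ j ∈ K, i < j → ¬ r i j)) := by
  classical
  by_cases hch : Chain (fun i j => i < j ∧ r i j) J (t + 1)
  · obtain ⟨f, h1, h2⟩ := hch
    refine ⟨(range (t + 1)).image f, ?_, ?_, Or.inl ?_⟩
    · intro x hx
      obtain ⟨i, hi, rfl⟩ := mem_image.1 hx
      exact h1 i (mem_range.1 hi)
    · rw [card_image_of_injOn, card_range]
      · omega
      · intro i hi j hj hij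
        have hi' := mem_range.1 (mem_coe.1 hi)
        have hj' := mem_range.1 (mem_coe.1 hj)
        rcases lt_trichotomy i j with h | h | h
        · have := (h2 i j h hj').1; omega
        · exact h
        · have := (h2 j i h hi').1; omega
    · intro x hx y hy hxy
      obtain ⟨i, hi, rfl⟩ := mem_image.1 hx
      obtain ⟨j, hj, rfl⟩ := mem_image.1 hy
      rcases lt_trichotomy i j with h | h | h
      · exact (h2 i j h (mem_range.1 hj)).2
      · rw [h] at hxy; omega
      · have := (h2 j i h (mem_range.1 hi)).1; omega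
  · obtain ⟨Y, hY, hanti, hc⟩ := mirsky _ t J
      (fun i hi j hj k hk h1 h2 => ⟨h1.1.trans h2.1, htr i hi j hj k hk h1.1 h2.1 h1.2 h2.2⟩) hch
    refine ⟨Y, hY, ?_, Or.inr (fun i hi j hj hij hr => hanti i hi j hj ⟨hij, hr⟩)⟩
    rcases Nat.eq_zero_or_pos t with h | h
    · omega
    · exact Nat.le_of_mul_le_mul_left (hJ.trans hc) h

def AllT (χ : ℕ → ℕ → ℕ → Prop) (K : Finset ℕ) : Prop :=
  ∀ x ∈ K, ∀ y ∈ K, ∀ z ∈ K, x < y → y < z → χ x y z

def Tr (χ : ℕ → ℕ → ℕ → Prop) (X : Finset ℕ) : Prop :=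
  ∀ x ∈ X, ∀ y ∈ X, ∀ z ∈ X, ∀ u ∈ X, x < y → y < z → z < u → χ x y z → χ y z u →
    χ x y u ∧ χ x z u

lemma Tr.mono {χ : ℕ → ℕ → ℕ → Prop} {X Y : Finset ℕ} (h : Tr χ X) (hY : Y ⊆ X) : Tr χ Y :=
  fun x hx y hy z hz u hu => h x (hY hx) y (hY hy) z (hY hz) u (hY hu)

lemma allT_of_two (χ : ℕ → ℕ → ℕ → Prop) {K : Finset ℕ} (hK : K.card = 2) : AllT χ K := by
  intro x hx y hy z hz h1 h2
  obtain ⟨a, b, _, rfl⟩ := card_eq_two.1 hK
  simp only [mem_insert, mem_singleton] at hx hy hz
  omega

lemma cups_caps (χ₁ χ₂ : ℕ → ℕ → ℕ → Prop) (a b : ℕ) (X : Finset ℕ)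
    (htot : ∀ x ∈ X, ∀ y ∈ X, ∀ z ∈ X, x < y → y < z → χ₁ x y z ∨ χ₂ x y z)
    (h1 : Tr χ₁ X) (h2 : Tr χ₂ X) (hX : (a + b).choose a < X.card) :
    ∃ K ⊆ X, (K.card = a + 2 ∧ AllT χ₁ K) ∨ (K.card = b + 2 ∧ AllT χ₂ K) := by
  classical
  induction a generalizing b X with
  | zero =>
    obtain ⟨K, hK, hc⟩ := exists_subset_card_eq (s := X) (n := 2) (by simp at hX; omega)
    exact ⟨K, hK, Or.inl ⟨hc, allT_of_two _ hc⟩⟩
  | succ a iha =>
    induction b generalizing X with
    | zero =>
      obtain ⟨K, hK, hc⟩ := exists_subset_card_eq (s := X) (n := 2) (by simp at hX; omega)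
      exact ⟨K, hK, Or.inr ⟨hc, allT_of_two _ hc⟩⟩
    | succ b ihb =>
      let P : ℕ → Prop := fun y => ∃ K ⊆ X, K.card = a + 2 ∧ AllT χ₁ K ∧ y ∈ K ∧ ∀ p ∈ K, p ≤ y
      have hs := card_filter_add_card_filter_not (s := X) P
      have hch : (a + 1 + (b + 1)).choose (a + 1) =
          (a + (b + 1)).choose a + (a + 1 + b).choose (a + 1) := by
        rw [show a + 1 + (b + 1) = (a + (b + 1)) + 1 by ring, Nat.choose_succ_succ,
          show a + 1 + b = a + (b + 1) by ring]
      by_cases hN : (a + (b + 1)).choose a < (X.filter (fun y => ¬ P y)).card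
      · have hsub := filter_subset (fun y => ¬ P y) X
        obtain ⟨K, hK, h | h⟩ := iha (b + 1) _
          (fun x hx y hy z hz => htot x (hsub hx) y (hsub hy) z (hsub hz))
          (h1.mono hsub) (h2.mono hsub) hN
        · have hne : K.Nonempty := card_pos.1 (by omega)
          exact absurd ⟨K, hK.trans hsub, h.1, h.2, K.max'_mem hne, fun p hp => K.le_max' p hp⟩
            (mem_filter.1 (hK (K.max'_mem hne))).2
        · exact ⟨K, hK.trans hsub, Or.inr h⟩
      · have hsub := filter_subset P X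
        obtain ⟨K₂, hK₂, h | h⟩ := ihb _
          (fun x hx y hy z hz => htot x (hsub hx) y (hsub hy) z (hsub hz))
          (h1.mono hsub) (h2.mono hsub) (by omega)
        · exact ⟨K₂, hK₂.trans hsub, Or.inl h⟩
        obtain ⟨hc₂, hall₂⟩ := h
        have hne₂ : K₂.Nonempty := card_pos.1 (by omega)
        obtain ⟨y, hy, hymin⟩ : ∃ y ∈ K₂, ∀ p ∈ K₂, y ≤ p :=
          ⟨_, K₂.min'_mem hne₂, fun p hp => K₂.min'_le p hp⟩
        have hne₂' : (K₂.erase y).Nonempty := card_pos.1 (by rw [card_erase_of_mem hy]; omega)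
        obtain ⟨z, hz, hzmin⟩ : ∃ z ∈ K₂.erase y, ∀ p ∈ K₂.erase y, z ≤ p :=
          ⟨_, (K₂.erase y).min'_mem hne₂', fun p hp => (K₂.erase y).min'_le p hp⟩
        obtain ⟨K₁, hK₁, hc₁, hall₁, hy₁, hymax⟩ := (mem_filter.1 (hK₂ hy)).2
        have hne₁' : (K₁.erase y).Nonempty := card_pos.1 (by rw [card_erase_of_mem hy₁]; omega)
        obtain ⟨x, hx, hxmax⟩ : ∃ x ∈ K₁.erase y, ∀ p ∈ K₁.erase y, p ≤ x :=
          ⟨_, (K₁.erase y).max'_mem hne₁', fun p hp => (K₁.erase y).le_max' p hp⟩
        have hx1 := mem_erase.1 hx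
        have hz1 := mem_erase.1 hz
        have hxy : x < y := lt_of_le_of_ne (hymax x hx1.2) hx1.1
        have hyz : y < z := lt_of_le_of_ne (hymin z hz1.2) hz1.1.symm
        have hxX := hK₁ hx1.2
        have hyX := hK₁ hy₁
        have hzX := hsub (hK₂ hz1.2)
        rcases htot x hxX y hyX z hzX hxy hyz with hχ | hχ
        · have hzn : z ∉ K₁ := fun h => by have := hymax z h; omega
          refine ⟨insert z K₁, insert_subset hzX hK₁, Or.inl ⟨by rw [card_insert_of_notMem hzn, hc₁], ?_⟩⟩
          have k1 : ∀ p ∈ K₁, p < y → χ₁ p y z := by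
            intro p hp hpy
            rcases eq_or_lt_of_le (hxmax p (mem_erase.2 ⟨hpy.ne, hp⟩)) with h | h
            · rw [h]; exact hχ
            · exact (h1 p (hK₁ hp) x hxX y hyX z hzX h hxy hyz
                (hall₁ p hp x hx1.2 y hy₁ h hxy) hχ).2
          intro p hp q hq u hu hpq hqu
          have hq' : q ∈ K₁ := by
            rcases mem_insert.1 hq with rfl | h
            · rcases mem_insert.1 hu with rfl | h'
              · omega
              · have := hymax u h'; omega
            · exact h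
          have hp' : p ∈ K₁ := by
            rcases mem_insert.1 hp with rfl | h
            · have := hymax q hq'; omega
            · exact h
          rcases mem_insert.1 hu with rfl | hu'
          · rcases eq_or_lt_of_le (hymax q hq') with h | h
            · rw [h] at hpq ⊢; exact k1 p hp' hpq
            · exact (h1 p (hK₁ hp') q (hK₁ hq') y hyX u hzX hpq h hyz
                (hall₁ p hp' q hq' y hy₁ hpq h) (k1 q hq' h)).1
          · exact hall₁ p hp' q hq' u hu' hpq hqu
        · have hxn : x ∉ K₂ := fun h => by have := hymin x h; omega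
          have hK₂X := hK₂.trans hsub
          refine ⟨insert x K₂, insert_subset hxX hK₂X,
            Or.inr ⟨by rw [card_insert_of_notMem hxn, hc₂], ?_⟩⟩
          have k1 : ∀ q ∈ K₂, y < q → χ₂ x y q := by
            intro q hq hyq
            rcases eq_or_lt_of_le (hzmin q (mem_erase.2 ⟨hyq.ne', hq⟩)) with h | h
            · rw [← h]; exact hχ
            · exact (h2 x hxX y hyX z hzX q (hK₂X hq) hxy hyz h hχ
                (hall₂ y hy z hz1.2 q hq hyz h)).1
          intro u hu p hp q hq hup hpq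
          have hp' : p ∈ K₂ := by
            rcases mem_insert.1 hp with rfl | h
            · rcases mem_insert.1 hu with rfl | h'
              · omega
              · have := hymin u h'; omega
            · exact h
          have hq' : q ∈ K₂ := by
            rcases mem_insert.1 hq with rfl | h
            · have := hymin p hp'; omega
            · exact h
          rcases mem_insert.1 hu with rfl | hu'
          · rcases eq_or_lt_of_le (hymin p hp') with h | h
            · rw [← h] at hpq ⊢; exact k1 q hq' hpq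
            · exact (h2 u hxX y hyX p (hK₂X hp') q (hK₂X hq') hxy h hpq (k1 p hp' h)
                (hall₂ y hy p hp' q hq' h hpq)).2
          · exact hall₂ u hu' p hp' q hq' hup hpq

lemma remove_exc (e e' : ℕ → ℕ) (K : Finset ℕ) (h : ∀ j ∈ K, e j < j ∧ e' j < j) :
    ∃ K' ⊆ K, K.card ≤ 3 * K'.card ∧ ∀ j ∈ K', e j ∉ K' ∧ e' j ∉ K' := by
  classical
  induction' hn : K.card using Nat.strong_induction_on with n ih generalizing K
  rcases K.eq_empty_or_nonempty with h0 | h0
  · exact ⟨∅, empty_subset _, by rw [← hn, h0]; simp, by simp⟩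
  obtain ⟨j, hj, hmax⟩ : ∃ j ∈ K, ∀ p ∈ K, p ≤ j :=
    ⟨_, K.max'_mem h0, fun p hp => K.le_max' p hp⟩
  let K1 := ((K.erase j).erase (e j)).erase (e' j)
  have hK1 : K1 ⊆ K.erase j := (erase_subset _ _).trans (erase_subset _ _)
  have c1 : K1.card < n := by
    have := card_le_card hK1
    rw [card_erase_of_mem hj] at this
    have := h0.card_pos
    omega
  have c2 : n ≤ K1.card + 3 := by
    have a1 := pred_card_le_card_erase (s := (K.erase j).erase (e j)) (a := e' j)
    have a2 := pred_card_le_card_erase (s := K.erase j) (a := e j)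
    have a3 := pred_card_le_card_erase (s := K) (a := j)
    simp only [K1]
    omega
  obtain ⟨K', hK', hc, hex⟩ := ih K1.card c1 K1
    (fun i hi => h i (mem_of_mem_erase (hK1 hi))) rfl
  have hjn : j ∉ K' := fun hh => by simpa using hK1 (hK' hh)
  refine ⟨insert j K', insert_subset hj (hK'.trans (hK1.trans (erase_subset _ _))), ?_, ?_⟩
  · rw [card_insert_of_notMem hjn]; omega
  · intro i hi
    rcases mem_insert.1 hi with rfl | hi'
    · have := h i hj
      refine ⟨fun hh => ?_, fun hh => ?_⟩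
      · rcases mem_insert.1 hh with h1 | h1
        · omega
        · have := hK' h1; simp [K1] at this
      · rcases mem_insert.1 hh with h1 | h1
        · omega
        · have := hK' h1; simp [K1] at this
    · have hiK := mem_of_mem_erase (hK1 (hK' hi'))
      have a1 := h i hiK
      have a2 := hmax i hiK
      have a3 := hex i hi'
      refine ⟨fun hh => ?_, fun hh => ?_⟩
      · rcases mem_insert.1 hh with h1 | h1
        · omega
        · exact a3.1 h1
      · rcases mem_insert.1 hh with h1 | h1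
        · omega
        · exact a3.2 h1

end Pool.Agent.P.MP_358d01_co.H51
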