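import Pool.Agent.P.MP_358d01_co.H51.Num

set_option autoImplicit false

namespace Pool.Agent.P.MP_358d01_co.H51

open Finset

lemma exists_poly (a b c e a' b' c' e' : Pt) :
    ∃ P : Polynomial ℝ, ∀ t : ℝ,
      P.eval t = D (a + t • a') (b + t • b') (c + t • c') (e + t • e') := by
  let L : Pt → Pt → Fin 3 → Polynomial ℝ := fun x y i =>
    Polynomial.C (x i) + Polynomial.X * Polynomial.C (y i)
  refine ⟨(L b b' 0 - L a a' 0) * ((L c c' 1 - L a a' 1) * (L e e' 2 - L a a' 2)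
      - (L c c' 2 - L a a' 2) * (L e e' 1 - L a a' 1))
    - (L b b' 1 - L a a' 1) * ((L c c' 0 - L a a' 0) * (L e e' 2 - L a a' 2)
      - (L c c' 2 - L a a' 2) * (L e e' 0 - L a a' 0))
    + (L b b' 2 - L a a' 2) * ((L c c' 0 - L a a' 0) * (L e e' 1 - L a a' 1)
      - (L c c' 1 - L a a' 1) * (L e e' 0 - L a a' 0)), fun t => ?_⟩
  simp only [L, D, Polynomial.eval_add, Polynomial.eval_sub, Polynomial.eval_mul,
    Polynomial.eval_C, Polynomial.eval_X, Pi.add_apply, Pi.smul_apply, smul_eq_mul]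

lemma generic {E : Type*} [AddCommGroup E] [Module ℝ E] (Q : Finset (E × E × E × E))
    (h : ∀ q ∈ Q, ∃ π : E →ₗ[ℝ] Pt, D (π q.1) (π q.2.1) (π q.2.2.1) (π q.2.2.2) ≠ 0) :
    ∃ π : E →ₗ[ℝ] Pt, ∀ q ∈ Q, D (π q.1) (π q.2.1) (π q.2.2.1) (π q.2.2.2) ≠ 0 := by
  classical
  induction Q using Finset.induction_on with
  | empty => exact ⟨0, by simp⟩
  | insert q Q hq ih =>
    obtain ⟨π0, h0⟩ := ih (fun q' hq' => h q' (mem_insert_of_mem hq'))
    obtain ⟨π1, h1⟩ := h q (mem_insert_self _ _)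
    choose P hP using fun r : E × E × E × E => exists_poly (π0 r.1) (π0 r.2.1) (π0 r.2.2.1)
      (π0 r.2.2.2) ((π1 - π0) r.1) ((π1 - π0) r.2.1) ((π1 - π0) r.2.2.1) ((π1 - π0) r.2.2.2)
    have hne : ∏ r ∈ insert q Q, P r ≠ 0 := by
      refine prod_ne_zero_iff.2 (fun r hr h0' => ?_)
      rcases mem_insert.1 hr with rfl | hr
      · have := hP r 1
        rw [h0'] at this
        apply h1
        simpa using this.symm
      · have := hP r 0
        rw [h0'] at this
        apply h0 r hr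
        simpa using this.symm
    obtain ⟨t, ht⟩ : ∃ t : ℝ, (∏ r ∈ insert q Q, P r).eval t ≠ 0 := by
      by_contra hc
      push Not at hc
      exact hne (Polynomial.funext (fun t => by rw [hc t]; simp))
    rw [Polynomial.eval_prod] at ht
    refine ⟨π0 + t • (π1 - π0), fun r hr => ?_⟩
    have := prod_ne_zero_iff.1 ht r hr
    rw [hP] at this
    simpa only [LinearMap.add_apply, LinearMap.smul_apply] using this

lemma exists_map_of_indep {E : Type*} [AddCommGroup E] [Module ℝ E] (p : Fin 4 → E)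
    (hp : AffineIndependent ℝ p) :
    ∃ π : E →ₗ[ℝ] Pt, D (π (p 0)) (π (p 1)) (π (p 2)) (π (p 3)) ≠ 0 := by
  let f : Pt →ₗ[ℝ] E := Fintype.linearCombination ℝ (fun i : Fin 3 => p i.succ - p 0)
  have hf : LinearMap.ker f = ⊥ := by
    rw [LinearMap.ker_eq_bot']
    intro v hv
    simp only [f, Fintype.linearCombination_apply, Fin.sum_univ_three, Fin.succ_zero_eq_one,
      Fin.succ_one_eq_two, Fin.reduceSucc] at hv
    have := affineIndependent_iff.1 hp univ ![-(v 0 + v 1 + v 2), v 0, v 1, v 2]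
      (by simp [Fin.sum_univ_four]; ring) (by
        simp only [Fin.sum_univ_four, Matrix.cons_val_zero, Matrix.cons_val_one, Matrix.cons_val]
        rw [← hv]; module)
    ext i
    fin_cases i
    · simpa using this 1 (mem_univ _)
    · simpa using this 2 (mem_univ _)
    · simpa using this 3 (mem_univ _)
  obtain ⟨g, hg⟩ := f.exists_leftInverse_of_injective hf
  have key : ∀ i j : Fin 3, g (p i.succ) j - g (p 0) j = if j = i then 1 else 0 := by
    intro i j
    have h1 := LinearMap.congr_fun hg (Pi.single i 1)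
    simp only [LinearMap.comp_apply, f, Fintype.linearCombination_apply_single, one_smul,
      map_sub, LinearMap.id_apply] at h1
    have := congrFun h1 j
    simpa [Pi.single_apply] using this
  refine ⟨g, ?_⟩
  have k00 := key 0 0
  have k01 := key 0 1
  have k02 := key 0 2
  have k10 := key 1 0
  have k11 := key 1 1
  have k12 := key 1 2
  have k20 := key 2 0
  have k21 := key 2 1
  have k22 := key 2 2
  simp only [Fin.succ_zero_eq_one, Fin.succ_one_eq_two, Fin.reduceSucc] at *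
  unfold D
  rw [k00, k01, k02, k10, k11, k12, k20, k21, k22]
  simp

lemma exists_proj {E : Type*} [AddCommGroup E] [Module ℝ E] (S : Finset E)
    (hS : ∀ T ⊆ S, T.card ≤ 4 → AffineIndependent ℝ (fun x : (T : Set E) => (x : E))) :
    ∃ π : E →ₗ[ℝ] Pt, ∀ a ∈ S, ∀ b ∈ S, ∀ c ∈ S, ∀ e ∈ S, a ≠ b → a ≠ c → a ≠ e → b ≠ c →
      b ≠ e → c ≠ e → D (π a) (π b) (π c) (π e) ≠ 0 := by
  classical
  obtain ⟨π, hπ⟩ := generic ((S ×ˢ S ×ˢ S ×ˢ S).filter (fun q => q.1 ≠ q.2.1 ∧ q.1 ≠ q.2.2.1 ∧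
    q.1 ≠ q.2.2.2 ∧ q.2.1 ≠ q.2.2.1 ∧ q.2.1 ≠ q.2.2.2 ∧ q.2.2.1 ≠ q.2.2.2)) (by
      rintro ⟨a, b, c, e⟩ hq
      simp only [mem_filter, mem_product] at hq
      obtain ⟨⟨ha, hb, hc, he⟩, h1, h2, h3, h4, h5, h6⟩ := hq
      have hT := hS {a, b, c, e} (by
        intro x hx
        simp only [mem_insert, mem_singleton] at hx
        rcases hx with rfl | rfl | rfl | rfl <;> assumption) card_le_four
      have hm : ∀ i : Fin 4, (![a, b, c, e] : Fin 4 → E) i ∈
          ((({a, b, c, e} : Finset E)) : Set E) := by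
        intro i; fin_cases i <;> simp
      have hinj : Function.Injective (![a, b, c, e] : Fin 4 → E) := by
        intro i j hij
        fin_cases i <;> fin_cases j <;> simp_all
      have := hT.comp_embedding ⟨fun i : Fin 4 => ⟨_, hm i⟩,
        fun i j hij => hinj (congrArg Subtype.val hij)⟩
      exact exists_map_of_indep ![a, b, c, e] this)
  refine ⟨π, fun a ha b hb c hc e he h1 h2 h3 h4 h5 h6 => hπ (a, b, c, e) ?_⟩
  simp only [mem_filter, mem_product]
  exact ⟨⟨ha, hb, hc, he⟩, h1, h2, h3, h4, h5, h6⟩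

theorem final {E : Type*} [AddCommGroup E] [Module ℝ E] [DecidableEq E] : ∃ C : ℝ, ∀ n : ℕ, 3 ≤ n →
    ∀ S : Finset E,
      (∀ T ⊆ S, T.card ≤ 4 → AffineIndependent ℝ (fun x : (T : Set E) => (x : E))) →
      Real.exp (C * (n : ℝ) ^ ((32 : ℝ) / 33) * Real.log n ^ 2) ≤ (S.card : ℝ) →
      ∃ T ⊆ S, T.card = n ∧ ∀ p ∈ T, p ∉ convexHull ℝ ((T.erase p : Finset E) : Set E) := by
  classical
  obtain ⟨C, hC⟩ := bound3_real
  refine ⟨max C 3, fun n hn S hS hc => ?_⟩
  have hn' : (3 : ℝ) ≤ n := by exact_mod_cast hn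
  have hlog1 : 1 ≤ Real.log n := by
    rw [Real.le_log_iff_exp_le (by linarith)]
    have := Real.exp_one_lt_d9
    linarith
  have hX : 1 ≤ (n : ℝ) ^ ((32 : ℝ) / 33) * Real.log n ^ 2 :=
    one_le_mul_of_one_le_of_one_le (Real.one_le_rpow (by linarith) (by norm_num))
      (one_le_pow₀ hlog1)
  rw [mul_assoc] at hc
  have h4 : 4 ≤ S.card := by
    have a1 := Real.add_one_le_exp (max C 3 * ((n : ℝ) ^ ((32 : ℝ) / 33) * Real.log n ^ 2))
    have a2 : (3 : ℝ) * 1 ≤ max C 3 * ((n : ℝ) ^ ((32 : ℝ) / 33) * Real.log n ^ 2) :=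
      mul_le_mul (le_max_right _ _) hX zero_le_one (le_trans (by norm_num) (le_max_right _ _))
    have : (4 : ℝ) ≤ S.card := by linarith
    exact_mod_cast this
  obtain ⟨π, hπ⟩ := exists_proj S hS
  have hinj : Set.InjOn π S := by
    intro a ha b hb hab
    by_contra hne
    have c1 : 1 < ((S.erase a).erase b).card := by
      have a1 := pred_card_le_card_erase (s := S.erase a) (a := b)
      have a2 := pred_card_le_card_erase (s := S) (a := a)
      omega
    obtain ⟨c, hc, e, he, hce⟩ := one_lt_card.1 c1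
    simp only [mem_erase] at hc he
    apply hπ a ha b hb c hc.2.2 e he.2.2 hne hc.2.1.symm he.2.1.symm hc.1.symm he.1.symm hce
    rw [hab, D_self12]
  have hGP : GP (S.image π) := by
    intro a' ha' b' hb' c' hc' e' he' h1 h2 h3 h4 h5 h6
    obtain ⟨a, ha, rfl⟩ := mem_image.1 ha'
    obtain ⟨b, hb, rfl⟩ := mem_image.1 hb'
    obtain ⟨c, hc, rfl⟩ := mem_image.1 hc'
    obtain ⟨e, he, rfl⟩ := mem_image.1 he'
    exact hπ a ha b hb c hc e he (fun h => h1 (by rw [h])) (fun h => h2 (by rw [h]))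
      (fun h => h3 (by rw [h])) (fun h => h4 (by rw [h])) (fun h => h5 (by rw [h]))
      (fun h => h6 (by rw [h]))
  have hnot : ¬ NC n (S.image π) := by
    intro hN
    have a1 := hC n hn _ hGP hN
    rw [card_image_of_injOn hinj, mul_assoc] at a1
    have a2 : Real.exp (C * ((n : ℝ) ^ ((32 : ℝ) / 33) * Real.log n ^ 2)) ≤
        Real.exp (max C 3 * ((n : ℝ) ^ ((32 : ℝ) / 33) * Real.log n ^ 2)) :=
      Real.exp_le_exp.2 (mul_le_mul_of_nonneg_right (le_max_left _ _) (by linarith))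
    linarith
  unfold NC at hnot
  push Not at hnot
  obtain ⟨Z, hZ, hconv, hcard⟩ := hnot
  obtain ⟨Z', hZ', hc'⟩ := exists_subset_card_eq hcard
  have hconv' := hconv.subset hZ'
  obtain ⟨T, hT, rfl⟩ := subset_image_iff.1 (hZ'.trans hZ)
  have hinjT : Set.InjOn π T := hinj.mono (by exact_mod_cast hT)
  refine ⟨T, hT, by rw [← hc', card_image_of_injOn hinjT], fun p hp hmem => ?_⟩
  apply hconv' (π p) (mem_image_of_mem _ hp)
  have a1 : π p ∈ π '' convexHull ℝ ((T.erase p : Finset E) : Set E) := ⟨p, hmem, rfl⟩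
  rw [LinearMap.image_convexHull] at a1
  refine convexHull_mono ?_ a1
  rintro _ ⟨x, hx, rfl⟩
  have hx' := mem_erase.1 (mem_coe.1 hx)
  exact mem_coe.2 (mem_erase.2 ⟨fun h => hx'.1 (hinjT hx'.2 hp h), mem_image_of_mem _ hx'.2⟩)

end Pool.Agent.P.MP_358d01_co.H51
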