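import Pool.Agent.P.MP_358d01_co.H51.Thresh

set_option autoImplicit false

namespace Pool.Agent.P.MP_358d01_co.H51

open Finset

lemma Good.sub {S : Finset Pt} {j σ : ℕ} {U : ℕ → Finset Pt} {Q : Set Pt}
    (h : Good S j U Q σ) : U j ⊆ S := by
  obtain ⟨V, g, C, Xh, h1, h2, h3, _⟩ := h
  exact h2.trans h3

/-- points and planes through a common point: a subfamily with all earlier points on one side -/
lemma point_plane (w : Pt) (y : ℕ → Pt) (J : Finset ℕ) {κ ε : ℝ}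
    (h1 : ∀ i ∈ J, 0 < κ * D w (y 0) (y 1) (y i))
    (h2 : ∀ i ∈ J, ∀ j ∈ J, i < j → 0 < ε * D w (y 0) (y i) (y j)) (hε : ε * ε = 1)
    (l : ℕ → Pt → ℝ) (hl : ∀ j ∈ J, IsAff (l j) ∧ l j w = 0 ∧ l j (y 0) = 1 ∧ l j (y j) = 0)
    (t : ℕ) (ht : (t * t) * (t * t) ≤ J.card) :
    ∃ K ⊆ J, t ≤ K.card ∧ ((∀ i ∈ K, ∀ j ∈ K, i < j → 0 < l j (y i)) ∨
      (∀ i ∈ K, ∀ j ∈ K, i < j → l j (y i) ≤ 0)) := by
  have five : ∀ i ∈ J, ∀ j ∈ J, ∀ k ∈ J,
      (l k (y i) - l j (y i)) * (κ * D w (y 0) (y 1) (y j)) =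
        (κ * ε * l k (y 1) - κ * ε * l j (y 1)) * (ε * D w (y 0) (y i) (y j)) +
          l k (y j) * (κ * D w (y 0) (y 1) (y i)) := by
    intro i _ j hj k hk
    have h5 := ((hl k hk).1.sub (hl j hj).1).five w (y 0) (y 1) (y i) (y j)
    simp only [(hl k hk).2.1, (hl j hj).2.1, (hl k hk).2.2.1, (hl j hj).2.2.1,
      (hl j hj).2.2.2] at h5
    linear_combination (-κ) * h5 -
      κ * (l k (y 1) - l j (y 1)) * D w (y 0) (y i) (y j) * hε
  obtain ⟨J2, hJ2, hc2, h | h⟩ := two_colour (fun i j => κ * ε * l i (y 1) ≤ κ * ε * l j (y 1)) J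
    (t * t) ht (fun i _ j _ k _ _ _ a b => a.trans b)
  · obtain ⟨K, hK, hc, h'⟩ := two_colour (fun i j => 0 < l j (y i)) J2 t hc2 (by
      intro i hi j hj k hk hij hjk a b
      have e := five i (hJ2 hi) j (hJ2 hj) k (hJ2 hk)
      have : 0 < (l k (y i) - l j (y i)) * (κ * D w (y 0) (y 1) (y j)) := by
        rw [e]
        exact add_pos_of_nonneg_of_pos
          (mul_nonneg (sub_nonneg.2 (h j hj k hk hjk)) (h2 i (hJ2 hi) j (hJ2 hj) hij).le)
          (mul_pos b (h1 i (hJ2 hi)))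
      have := (mul_pos_iff_of_pos_right (h1 j (hJ2 hj))).1 this
      linarith)
    refine ⟨K, hK.trans hJ2, hc, h'.imp id (fun h i hi j hj hij => not_lt.1 (h i hi j hj hij))⟩
  · obtain ⟨K, hK, hc, h'⟩ := two_colour (fun i j => l j (y i) ≤ 0) J2 t hc2 (by
      intro i hi j hj k hk hij hjk a b
      have e := five i (hJ2 hi) j (hJ2 hj) k (hJ2 hk)
      have : (l k (y i) - l j (y i)) * (κ * D w (y 0) (y 1) (y j)) ≤ 0 := by
        rw [e]
        exact add_nonpos (mul_nonpos_of_nonpos_of_nonneg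
          (sub_nonpos.2 (not_le.1 (h j hj k hk hjk)).le) (h2 i (hJ2 hi) j (hJ2 hj) hij).le)
          (mul_nonpos_of_nonpos_of_nonneg b (h1 i (hJ2 hi)).le)
      have := nonpos_of_mul_nonpos_left this (h1 j (hJ2 hj))
      linarith)
    refine ⟨K, hK.trans hJ2, hc, h'.symm.imp
      (fun h i hi j hj hij => not_le.1 (h i hi j hj hij)) id⟩

lemma select {S : Finset Pt} (hS : GP S) {n a β m : ℕ} (hN : NC n S) (hn : n ≤ β * (a + 2))
    (hm : m = 2 * ((3 * β + 3) ^ 4 + 1) ^ 2 + 2) (U : ℕ → Finset Pt) (w : Pt) (σ : ℕ → ℕ)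
    (hG : ∀ j < m, Good S j U {p | p = w ∨ ∃ i, j < i ∧ i < m ∧ p ∈ U i} (σ j))
    (hc : ∀ j < m, σ j * ((a + n).choose a) ^ 8 ≤ (U j).card)
    (hne : ∀ j < m, (U j).Nonempty) : False := by
  classical
  choose! y hy using hne
  have hD : ∀ j < m, ∀ i < j, ∀ i' < j, i ≠ i' → D (y j) w (y i) (y i') ≠ 0 :=
    fun j hj i hi i' hi' hii => (hG j hj).ne hi hi' hii (hy j hj) (Or.inl rfl) (hy i (by omega))
      (hy i' (by omega))
  have hD' : ∀ j < m, ∀ i < j, ∀ i' < j, i ≠ i' → D w (y i) (y i') (y j) ≠ 0 := by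
    intro j hj i hi i' hi' hii h
    apply hD j hj i hi i' hi' hii
    rw [D_p3, h, neg_zero]
  have hD'' : ∀ j < m, ∀ i < j, ∀ i' < j, i ≠ i' → D w (y i) (y j) (y i') ≠ 0 := by
    intro j hj i hi i' hi' hii h
    apply hD j hj i hi i' hi' hii
    rw [← D_cyc, h]
  set t := 3 * β + 3 with ht
  obtain ⟨κ, hκ, J0, hJ0, hc0, h0⟩ : ∃ κ : ℝ, κ * κ = 1 ∧ ∃ J0 ⊆ Ico 2 m,
      (t ^ 4 + 1) * (t ^ 4 + 1) ≤ J0.card ∧ ∀ i ∈ J0, 0 < κ * D w (y 0) (y 1) (y i) := by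
    have hs := card_filter_add_card_filter_not (s := Ico 2 m)
      (fun i => 0 < D w (y 0) (y 1) (y i))
    have hm2 : m - 2 = 2 * ((t ^ 4 + 1) * (t ^ 4 + 1)) := by rw [hm, Nat.add_sub_cancel, sq]
    rw [Nat.card_Ico, hm2] at hs
    by_cases h : (t ^ 4 + 1) * (t ^ 4 + 1) ≤
        ((Ico 2 m).filter (fun i => 0 < D w (y 0) (y 1) (y i))).card
    · exact ⟨1, by simp, _, filter_subset _ _, h, fun i hi => by simpa using (mem_filter.1 hi).2⟩
    · refine ⟨-1, by simp, (Ico 2 m).filter (fun i => ¬ 0 < D w (y 0) (y 1) (y i)),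
        filter_subset _ _, by omega, fun i hi => ?_⟩
      have h1 := mem_filter.1 hi
      have h2 := mem_Ico.1 h1.1
      have := lt_of_le_of_ne (not_lt.1 h1.2) (hD' i h2.2 0 (by omega) 1 (by omega) (by omega))
      linarith
  obtain ⟨ε, hε, J1, hJ1, hc1, h1⟩ : ∃ ε : ℝ, (ε = 1 ∨ ε = -1) ∧ ∃ J1 ⊆ J0,
      t ^ 4 + 1 ≤ J1.card ∧ ∀ i ∈ J1, ∀ j ∈ J1, i < j → 0 < ε * D w (y 0) (y i) (y j) := by
    obtain ⟨J1, hJ1, hc1, h | h⟩ := two_colour (fun i j => 0 < D w (y 0) (y i) (y j)) J0 _ hc0 (by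
      intro i hi j hj k hk _ _ a b
      have := trans_axis (x := w) (c := y 0) (u := y i) (v := y j) (w := y k) (g := y 1)
        (α := -κ) (β := -κ) (γ := -κ) (τ := 1) (by rw [D_swap34]; linarith [h0 i hi])
        (by rw [D_swap34]; linarith [h0 j hj]) (by rw [D_swap34]; linarith [h0 k hk])
        (by rw [one_mul, neg_mul_neg, hκ, one_mul]; exact a)
        (by rw [one_mul, neg_mul_neg, hκ, one_mul]; exact b)
      rwa [one_mul, neg_mul_neg, hκ, one_mul] at this)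
    · exact ⟨1, Or.inl rfl, J1, hJ1, hc1, by simpa using h⟩
    · refine ⟨-1, Or.inr rfl, J1, hJ1, hc1, fun i hi j hj hij => ?_⟩
      have a1 := mem_Ico.1 (hJ0 (hJ1 hi))
      have a2 := mem_Ico.1 (hJ0 (hJ1 hj))
      have := lt_of_le_of_ne (not_lt.1 (h i hi j hj hij))
        (hD' j a2.2 0 (by omega) i hij (by omega))
      linarith
  have hεε : ε * ε = 1 := by rcases hε with h | h <;> simp [h]
  have hr : ∀ i ∈ J1, 2 ≤ i ∧ i < m := fun i hi => mem_Ico.1 (hJ0 (hJ1 hi))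
  have hne1 : J1.Nonempty := card_pos.1 (by omega)
  obtain ⟨i1, hi1, hmin1⟩ : ∃ i1 ∈ J1, ∀ p ∈ J1, i1 ≤ p :=
    ⟨_, J1.min'_mem hne1, fun p hp => J1.min'_le p hp⟩
  have hth : ∀ j ∈ J1.erase i1, ∃ e ∈ J1.filter (· < j), ∃ e' ∈ J1.filter (· < j),
      ∀ ν : ℝ, (ν = 1 ∨ ν = -1) → ∀ I ⊆ J1.filter (· < j), I.Nonempty →
      (∀ i ∈ I, i ≠ e ∧ i ≠ e' ∧ 0 < ν * D w (y e) (y j) (y i)) →
      ∃ Z ⊆ U j, Z.card = a + 2 ∧ Exposes Z ({p | p = w ∨ ∃ i, j < i ∧ i < m ∧ p ∈ U i} ∪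
        ⋃ i ∈ I, (U i : Set Pt)) := by
    intro j hj
    have hj' := mem_erase.1 hj
    have hjm := (hr j hj'.2).2
    refine thresh hS hN (hG j hjm) (hc j hjm) (fun i hi => hy i (by omega)) (Or.inl rfl) hε _ ?_
      ⟨i1, mem_filter.2 ⟨hi1, lt_of_le_of_ne (hmin1 j hj'.2) hj'.1.symm⟩⟩
    intro i hi
    have hi' := mem_filter.1 hi
    exact ⟨by have := hr i hi'.1; omega, hi'.2, h1 i hi'.1 j hj'.2 hi'.2⟩
  choose! e he e' he' hth using hth
  have hsub1 := erase_subset i1 J1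
  have hden : ∀ j ∈ J1.erase i1, D w (y (e j)) (y j) (y 0) ≠ 0 := by
    intro j hj
    have a1 := mem_filter.1 (he j hj)
    have a2 := hr j (hsub1 hj)
    have a3 := hr _ a1.1
    exact hD'' j a2.2 _ a1.2 0 (by omega) (by omega)
  obtain ⟨J3, hJ3, hc3, h3⟩ := point_plane w y (J1.erase i1)
    (fun i hi => h0 i (hJ1 (hsub1 hi))) (fun i hi j hj => h1 i (hsub1 hi) j (hsub1 hj)) hεε
    (fun j p => (D w (y (e j)) (y j) (y 0))⁻¹ * D w (y (e j)) (y j) p)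
    (fun j hj => ⟨(isAff_D4 _ _ _).const_mul _, by simp [D_self14], inv_mul_cancel₀ (hden j hj),
      by simp [D_self34]⟩) t (by
        rw [card_erase_of_mem hi1]
        have : t * t * (t * t) = t ^ 4 := by ring
        omega)
  have h4 : ∀ j ∈ J3, ∃ ν : ℝ, (ν = 1 ∨ ν = -1) ∧ ∀ i ∈ J3, i < j → i ≠ e j →
      0 < ν * D w (y (e j)) (y j) (y i) := by
    intro j hj
    have a1 := mem_filter.1 (he j (hJ3 hj))
    have a2 := hr j (hsub1 (hJ3 hj))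
    have hd := hden j (hJ3 hj)
    have hnz : ∀ i, i < j → i ≠ e j → D w (y (e j)) (y j) (y i) ≠ 0 :=
      fun i hij hie => hD'' j a2.2 _ a1.2 i hij hie.symm
    rcases h3 with h | h
    · rcases lt_or_gt_of_ne hd with hd' | hd'
      · refine ⟨-1, Or.inr rfl, fun i hi hij _ => ?_⟩
        have := neg_of_mul_pos_left (b := (D w (y (e j)) (y j) (y 0))⁻¹)
          (by rw [mul_comm]; exact h i hi j hj hij) (inv_lt_zero.2 hd').le
        linarith
      · refine ⟨1, Or.inl rfl, fun i hi hij _ => ?_⟩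
        have := (mul_pos_iff_of_pos_left (inv_pos.2 hd')).1 (h i hi j hj hij)
        linarith
    · rcases lt_or_gt_of_ne hd with hd' | hd'
      · refine ⟨1, Or.inl rfl, fun i hi hij hie => ?_⟩
        have := lt_of_le_of_ne (h i hi j hj hij) (mul_ne_zero (inv_ne_zero hd) (hnz i hij hie))
        have := pos_of_mul_neg_right this (inv_lt_zero.2 hd').le
        linarith
      · refine ⟨-1, Or.inr rfl, fun i hi hij hie => ?_⟩
        have := lt_of_le_of_ne (h i hi j hj hij) (mul_ne_zero (inv_ne_zero hd) (hnz i hij hie))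
        have := neg_of_mul_neg_right this (inv_pos.2 hd').le
        linarith
  obtain ⟨K, hK, hcK, hex⟩ := remove_exc e e' J3 (fun j hj =>
    ⟨(mem_filter.1 (he j (hJ3 hj))).2, (mem_filter.1 (he' j (hJ3 hj))).2⟩)
  have hneK : K.Nonempty := card_pos.1 (by omega)
  obtain ⟨k1, hk1, hmink⟩ : ∃ k1 ∈ K, ∀ p ∈ K, k1 ≤ p :=
    ⟨_, K.min'_mem hneK, fun p hp => K.min'_le p hp⟩
  have hsubK := erase_subset k1 K
  have hZ : ∀ j ∈ K.erase k1, ∃ Z ⊆ U j, Z.card = a + 2 ∧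
      Exposes Z {p | ∃ i ∈ K, i ≠ j ∧ p ∈ U i} := by
    intro j hj
    have hj' := mem_erase.1 hj
    obtain ⟨ν, hν, h5⟩ := h4 j (hK hj'.2)
    obtain ⟨Z, hZ1, hZ2, hZ3⟩ := hth j (hJ3 (hK hj'.2)) ν hν (K.filter (· < j))
      (filter_subset_filter _ (hK.trans (hJ3.trans hsub1)))
      ⟨k1, mem_filter.2 ⟨hk1, lt_of_le_of_ne (hmink j hj'.2) hj'.1.symm⟩⟩ (by
        intro i hi
        have hi' := mem_filter.1 hi
        have b1 : i ≠ e j := fun h => (hex j hj'.2).1 (h ▸ hi'.1)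
        exact ⟨b1, fun h => (hex j hj'.2).2 (h ▸ hi'.1), h5 i (hK hi'.1) hi'.2 b1⟩)
    refine ⟨Z, hZ1, hZ2, fun z hz => ?_⟩
    obtain ⟨z', c1, φ, c2, c3, c4, c5, c6⟩ := hZ3 z hz
    refine ⟨z', c1, φ, c2, c3, c4, c5, ?_⟩
    rintro p ⟨i, hi, hij, hp⟩
    apply c6
    rcases lt_or_gt_of_ne hij with h | h
    · right
      simp only [Set.mem_iUnion, mem_coe]
      exact ⟨i, mem_filter.2 ⟨hi, h⟩, hp⟩
    · left
      exact Or.inr ⟨i, h, (hr i (hsub1 (hJ3 (hK hi)))).2, hp⟩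
  choose! Z hZ1 hZ2 hZ3 using hZ
  have hex2 : Exposes ((K.erase k1).biUnion Z) ∅ := by
    intro z hz
    obtain ⟨j, hj, hzj⟩ := mem_biUnion.1 hz
    obtain ⟨z', c1, φ, c2, c3, c4, c5, c6⟩ := hZ3 j hj z hzj
    refine ⟨z', c1, φ, c2, c3, c4, fun p hp d1 d2 => ?_, by simp⟩
    obtain ⟨i, hi, hpi⟩ := mem_biUnion.1 hp
    by_cases h : i = j
    · exact c5 p (h ▸ hpi) d1 d2
    · exact c6 p ⟨i, hsubK hi, h, hZ1 i hi hpi⟩
  have hcard : ((K.erase k1).biUnion Z).card = (K.erase k1).card * (a + 2) := by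
    rw [card_biUnion, sum_congr rfl hZ2, sum_const, smul_eq_mul]
    intro i hi j hj hij
    refine disjoint_left.2 (fun z hzi hzj => ?_)
    obtain ⟨z', c1, φ, c2, c3, c4, c5, c6⟩ := hZ3 j hj z hzj
    have := c6 z ⟨i, hsubK hi, hij, hZ1 i hi hzi⟩
    linarith
  have hlt := hN _ (by
    intro z hz
    obtain ⟨j, hj, hzj⟩ := mem_biUnion.1 hz
    exact (hG j (hr j (hsub1 (hJ3 (hK (hsubK hj))))).2).sub (hZ1 j hj hzj)) hex2.conv
  rw [hcard, card_erase_of_mem hk1] at hlt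
  have : β * (a + 2) ≤ (K.card - 1) * (a + 2) := Nat.mul_le_mul_right _ (by omega)
  omega

end Pool.Agent.P.MP_358d01_co.H51
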