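import Pool.Agent.P.MP_358d01_co.H51.Basic

set_option autoImplicit false

namespace Pool.Agent.P.MP_358d01_co.H51

open Finset

lemma cara {V : Finset Pt} {w : Pt} (hw : w ∈ convexHull ℝ (V : Set Pt)) :
    ∃ g : Fin 4 → Pt, (∀ i, g i ∈ V) ∧ w ∈ convexHull ℝ ((univ.image g : Finset Pt) : Set Pt) := by
  classical
  rw [convexHull_eq_union] at hw
  simp only [Set.mem_iUnion] at hw
  obtain ⟨t, ht, hai, hwt⟩ := hw
  have hc : Fintype.card t ≤ Fintype.card (Fin 4) := by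
    have h1 := hai.card_le_finrank_succ.trans (Nat.add_le_add_right (Submodule.finrank_le _) 1)
    simpa using h1
  have hne : t.Nonempty := by
    rcases t.eq_empty_or_nonempty with h | h
    · simp [h] at hwt
    · exact h
  obtain ⟨x, hx⟩ := hne
  obtain ⟨f, hf⟩ := (Function.exists_surjective_iff (α := Fin 4) (β := t)).2
    ⟨⟨fun _ => ⟨x, hx⟩⟩, Function.Embedding.nonempty_of_card_le hc⟩
  refine ⟨fun i => f i, fun i => ht (f i).2, convexHull_mono ?_ hwt⟩
  intro y hy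
  obtain ⟨i, hi⟩ := hf ⟨y, hy⟩
  simp only [coe_image, coe_univ, Set.image_univ, Set.mem_range]
  exact ⟨i, by rw [hi]⟩

lemma exists_vertices (W : Finset Pt) :
    ∃ V ⊆ W, Conv V ∧ (W : Set Pt) ⊆ convexHull ℝ (V : Set Pt) := by
  classical
  obtain ⟨V, hV, hmin⟩ := (W.powerset.filter
    (fun V : Finset Pt => (W : Set Pt) ⊆ convexHull ℝ (V : Set Pt))).exists_min_image card
    ⟨W, mem_filter.2 ⟨mem_powerset_self _, subset_convexHull _ _⟩⟩
  obtain ⟨h1, h2⟩ := mem_filter.1 hV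
  refine ⟨V, mem_powerset.1 h1, ?_, h2⟩
  intro p hp hc
  have hsub : (V : Set Pt) ⊆ convexHull ℝ ((V.erase p : Finset Pt) : Set Pt) := by
    intro y hy
    by_cases hyp : y = p
    · rw [hyp]; exact hc
    · exact subset_convexHull _ _ (mem_coe.2 (mem_erase.2 ⟨hyp, hy⟩))
  have h3 := convexHull_min hsub (convex_convexHull ℝ _)
  have h4 := hmin (V.erase p) (mem_filter.2
    ⟨mem_powerset.2 ((erase_subset _ _).trans (mem_powerset.1 h1)), h2.trans h3⟩)
  rw [card_erase_of_mem hp] at h4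
  have := card_pos.2 ⟨p, hp⟩
  omega

lemma tetra {S W : Finset Pt} {n : ℕ} (hN : NC n S) (hW : W ⊆ S) (hne : W.Nonempty) :
    ∃ C ⊆ W, C.Nonempty ∧ C.card ≤ 4 ∧ ∃ P ⊆ W,
      (∀ w ∈ P, w ∈ convexHull ℝ (C : Set Pt) ∧ w ∉ C) ∧ W.card ≤ n ^ 4 * (P.card + 4) := by
  classical
  obtain ⟨V, hVW, hconv, hsub⟩ := exists_vertices W
  have hVn := hN V (hVW.trans hW) hconv
  let F : (Fin 4 → Pt) → Finset Pt := fun g =>
    W.filter (fun w => w ∈ convexHull ℝ ((univ.image g : Finset Pt) : Set Pt))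
  let G := Fintype.piFinset (fun _ : Fin 4 => V)
  have hG : G.card = V.card ^ 4 := by simp [G]
  have hGne : G.Nonempty := by
    obtain ⟨w, hw⟩ := hne
    obtain ⟨g, hg, _⟩ := cara (hsub (mem_coe.2 hw))
    exact ⟨g, Fintype.mem_piFinset.2 hg⟩
  obtain ⟨g, hg, hmax⟩ := G.exists_max_image (fun g => (F g).card) hGne
  have hcov : W ⊆ G.biUnion F := by
    intro w hw
    obtain ⟨g, hg, hwg⟩ := cara (hsub (mem_coe.2 hw))
    exact mem_biUnion.2 ⟨g, Fintype.mem_piFinset.2 hg, mem_filter.2 ⟨hw, hwg⟩⟩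
  have hc : W.card ≤ G.card * (F g).card :=
    (card_le_card hcov).trans (card_biUnion_le_card_mul _ _ _ hmax)
  have hC4 : (univ.image g).card ≤ 4 := card_image_le.trans (by simp)
  refine ⟨univ.image g, ?_, by simp, hC4, F g \ univ.image g,
    sdiff_subset.trans (filter_subset _ _), ?_, ?_⟩
  · intro x hx
    obtain ⟨i, _, rfl⟩ := mem_image.1 hx
    exact hVW (Fintype.mem_piFinset.1 hg i)
  · intro w hw
    exact ⟨(mem_filter.1 (mem_sdiff.1 hw).1).2, (mem_sdiff.1 hw).2⟩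
  · have h1 := le_card_sdiff (univ.image g) (F g)
    have h2 : V.card ^ 4 ≤ n ^ 4 := Nat.pow_le_pow_left hVn.le 4
    rw [hG] at hc
    exact hc.trans (Nat.mul_le_mul h2 (by omega))

end Pool.Agent.P.MP_358d01_co.H51
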