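import Pool.Agent.P.MP_358d01_co.H51.Select
import Pool.Agent.P.MP_358d01_co.H51.Tetra

set_option autoImplicit false

namespace Pool.Agent.P.MP_358d01_co.H51

open Finset

lemma shrink {a b L x : ℕ} (h : a ≤ L * (b + 4)) (h1 : 5 * L * x ≤ a) (hx : 1 ≤ x) (hL : 1 ≤ L) :
    x ≤ b := by
  by_contra hc
  have h2 : L * (b + 4) ≤ L * (4 * x) := Nat.mul_le_mul_left _ (by omega)
  have h3 : 1 ≤ L * x := Nat.mul_pos hL hx
  nlinarith

def Lam (m : ℕ) : ℕ := 5 * (4 ^ 16) ^ (6 * m ^ 3)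
def Om (m Θ : ℕ) : ℕ := 5 * 4 ^ 16 * (Lam m ^ m * Θ)
def Bb (m μ Θ : ℕ) : ℕ := 2 * Om m Θ ^ (12 * μ + 21)
def Gg (m n : ℕ) : ℕ := Lam m * (5 * n ^ 4)

lemma Lam_pos (m : ℕ) : 1 ≤ Lam m := by unfold Lam; exact Nat.succ_le_of_lt (by positivity)

def Inv (S : Finset Pt) (m μ n Θ k : ℕ) (U : ℕ → Finset Pt) (P : Finset Pt) (σ : ℕ → ℕ) : Prop :=
  P ⊆ S ∧ (∀ i, U i ⊆ S) ∧
  (∀ j < k, Good S j U {p | p ∈ P ∨ ∃ i, j < i ∧ i < k ∧ p ∈ U i} (σ j)) ∧
  (∀ j < k, 1 ≤ σ j ∧ Lam m ^ (m - k) * (Θ * σ j) ≤ (U j).card) ∧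
  Gg m n ^ (m - k) * Bb m μ Θ ≤ P.card

lemma step {S : Finset Pt} (hS : GP S) {m μ n Θ k : ℕ} (hN : NC n S) (hn : 1 ≤ n) (hΘ : 1 ≤ Θ)
    (hμ : m ≤ 2 ^ μ) (hk : k < m) {U : ℕ → Finset Pt} {P : Finset Pt} {σ : ℕ → ℕ}
    (h : Inv S m μ n Θ k U P σ) : ∃ U' P' σ', Inv S m μ n Θ (k + 1) U' P' σ' := by
  classical
  obtain ⟨hP, hU, hG, hc, hcP⟩ := h
  have hΛ := Lam_pos m
  have hΩ : 1 ≤ Om m Θ := by unfold Om; exact Nat.succ_le_of_lt (by positivity)
  have hB : 1 ≤ Bb m μ Θ := by unfold Bb; exact Nat.succ_le_of_lt (by positivity)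
  have hGg : 1 ≤ Gg m n := by unfold Gg; exact Nat.succ_le_of_lt (by positivity)
  let T1 : Finset ((Unit ⊕ ℕ ⊕ ℕ) × (Unit ⊕ ℕ ⊕ ℕ) × (Unit ⊕ ℕ ⊕ ℕ) × (Unit ⊕ ℕ ⊕ ℕ)) :=
    (range k ×ˢ range (2 * m) ×ˢ range (2 * m)).image (fun q =>
      (Sum.inl (), Sum.inr (Sum.inl q.1), Sum.inr (Sum.inr q.2.1), Sum.inr (Sum.inr q.2.2)))
  let T2 : Finset ((Unit ⊕ ℕ ⊕ ℕ) × (Unit ⊕ ℕ ⊕ ℕ) × (Unit ⊕ ℕ ⊕ ℕ) × (Unit ⊕ ℕ ⊕ ℕ)) :=
    (range (2 * m) ×ˢ range k ×ˢ range k).image (fun q =>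
      (Sum.inl (), Sum.inr (Sum.inr q.1), Sum.inr (Sum.inl q.2.1), Sum.inr (Sum.inl q.2.2)))
  have hT : (T1 ∪ T2).card ≤ 6 * m ^ 3 := by
    have a1 : T1.card ≤ k * (2 * m * (2 * m)) := card_image_le.trans (by simp)
    have a2 : T2.card ≤ 2 * m * (k * k) := card_image_le.trans (by simp)
    have a3 : k * (2 * m * (2 * m)) ≤ m * (2 * m * (2 * m)) := Nat.mul_le_mul_right _ hk.le
    have a4 : 2 * m * (k * k) ≤ 2 * m * (m * m) :=
      Nat.mul_le_mul_left _ (Nat.mul_le_mul hk.le hk.le)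
    have a5 := card_union_le T1 T2
    have a6 : m * (2 * m * (2 * m)) + 2 * m * (m * m) = 6 * m ^ 3 := by ring
    omega
  obtain ⟨A, hA, hWS, hcA⟩ := ws_family hS (T1 ∪ T2)
    (Sum.elim (fun _ => P) (Sum.elim U (fun _ => P))) (by
      rintro (_ | i | b)
      · exact hP
      · exact hU i
      · exact hP)
  have hcA' : ∀ i x, 1 ≤ x → Lam m * x ≤
      ((Sum.elim (fun _ => P) (Sum.elim U (fun _ => P)) : Unit ⊕ ℕ ⊕ ℕ → Finset Pt) i).card →
      x ≤ (A i).card := by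
    intro i x hx h
    refine shrink (L := (4 ^ 16) ^ (6 * m ^ 3)) ?_ h hx (Nat.succ_le_of_lt (by positivity))
    exact (Nat.le_add_right _ 4).trans ((hcA i).trans
      (Nat.mul_le_mul_right _ (Nat.pow_le_pow_right (by norm_num) hT)))
  have hmk : m - k = (m - (k + 1)) + 1 := by omega
  have hpool : Lam m * (5 * n ^ 4 * (Gg m n ^ (m - (k + 1)) * Bb m μ Θ)) ≤ P.card := by
    refine le_of_eq_of_le ?_ hcP
    rw [hmk, pow_succ]; unfold Gg; ring
  have hx1 : 1 ≤ Gg m n ^ (m - (k + 1)) * Bb m μ Θ := Nat.succ_le_of_lt (by positivity)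
  have hx2 : 1 ≤ 5 * n ^ 4 * (Gg m n ^ (m - (k + 1)) * Bb m μ Θ) :=
    Nat.succ_le_of_lt (by positivity)
  have hV : ∀ i < k, Lam m ^ (m - (k + 1)) * (Θ * σ i) ≤ (A (Sum.inr (Sum.inl i))).card := by
    intro i hi
    have := (hc i hi).1
    refine hcA' _ _ (Nat.succ_le_of_lt (by positivity)) (le_of_eq_of_le ?_ (hc i hi).2)
    rw [hmk, pow_succ]; ring
  have hVne : ∀ i < k, (A (Sum.inr (Sum.inl i))).Nonempty := by
    intro i hi
    have := (hc i hi).1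
    exact card_pos.1 (lt_of_lt_of_le (by positivity) (hV i hi))
  choose! g hg using hVne
  have hW : ∀ b : ℕ, ∃ C ⊆ A (Sum.inr (Sum.inr b)), C.Nonempty ∧ C.card ≤ 4 ∧
      ∃ P' ⊆ A (Sum.inr (Sum.inr b)), (∀ w ∈ P', w ∈ convexHull ℝ (C : Set Pt) ∧ w ∉ C) ∧
        Gg m n ^ (m - (k + 1)) * Bb m μ Θ ≤ P'.card := by
    intro b
    have h1 := hcA' (Sum.inr (Sum.inr b)) _ hx2 hpool
    obtain ⟨C, c1, c2, c3, P', c4, c5, c6⟩ := tetra hN ((hA (Sum.inr (Sum.inr b))).trans hP)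
      (card_pos.1 (by omega))
    exact ⟨C, c1, c2, c3, P', c4, c5, shrink c6 h1 hx1 (Nat.succ_le_of_lt (by positivity))⟩
  choose C hC1 hC2 hC3 P' hP1 hP2 hP3 using hW
  have hX := hcA' (Sum.inl ()) _ hx2 hpool
  have hXP : A (Sum.inl ()) ⊆ P := hA (Sum.inl ())
  obtain ⟨b, hb, X', hX', s, hs1, hs2, hs3⟩ := vc_pick hS (hXP.trans hP) (m := m) (μ := μ) (j := k)
    (Ω := Om m Θ) (by omega) hμ hk.le hΩ (fun i => A (Sum.inr (Sum.inl i))) g
    (fun i hi => ⟨hg i hi, hU i (hA (Sum.inr (Sum.inl i)) (hg i hi))⟩) C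
    (fun b _ => ⟨(hC1 b).trans ((hA (Sum.inr (Sum.inr b))).trans hP), hC2 b, hC3 b⟩)
    (by
      intro i hi b hb b' hb' hbb
      refine (hWS (Sum.inl ()) (Sum.inr (Sum.inl i)) (Sum.inr (Sum.inr b)) (Sum.inr (Sum.inr b'))
        (mem_union_left _ (mem_image.2 ⟨(i, b, b'), by simp [hi, hb, hb'], rfl⟩))
        (by simp) (by simp) (by simp) (by simp) (by simp) (by simpa using hbb)).mono
        Subset.rfl Subset.rfl (hC1 b) (hC1 b'))
    (by
      refine le_trans ?_ hX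
      have a1 : 1 ≤ 5 * n ^ 4 * Gg m n ^ (m - (k + 1)) := Nat.succ_le_of_lt (by positivity)
      calc 2 * Om m Θ ^ (12 * μ + 21) = 1 * Bb m μ Θ := by unfold Bb; ring
        _ ≤ (5 * n ^ 4 * Gg m n ^ (m - (k + 1))) * Bb m μ Θ := Nat.mul_le_mul_right _ a1
        _ = _ := by ring)
  obtain ⟨Y, hY, hL, hcY⟩ := avoid_lines hS (C b) X' (hX'.trans (hXP.trans hP))
  have hY2 : Lam m ^ m * (Θ * s) ≤ Y.card := by
    refine shrink (a := X'.card) (L := 4 ^ 16) ?_ (le_of_eq_of_le ?_ hs2)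
      (Nat.succ_le_of_lt (by positivity)) (by norm_num)
    · refine (Nat.le_add_right _ 4).trans (hcY.trans (Nat.mul_le_mul_right _
        (Nat.pow_le_pow_right (by norm_num) ?_)))
      exact Nat.mul_le_mul (hC3 b) (hC3 b)
    · unfold Om; ring
  have hYP : Y ⊆ P := hY.trans (hX'.trans hXP)
  have hP'P : P' b ⊆ P := (hP1 b).trans (hA (Sum.inr (Sum.inr b)))
  refine ⟨fun i => if i = k then Y else A (Sum.inr (Sum.inl i)), P' b,
    fun j => if j = k then s else σ j, hP'P.trans hP, ?_, ?_, ?_, hP3 b⟩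
  · intro i
    beta_reduce
    split_ifs
    · exact hYP.trans hP
    · exact (hA (Sum.inr (Sum.inl i))).trans (hU i)
  · intro j hj
    rcases Nat.lt_succ_iff_lt_or_eq.1 hj with hj | rfl
    · simp only [hj.ne, if_false]
      refine (hG j hj).mono ?_ ?_
      · intro i hi
        have : i ≠ k := by omega
        simp only [this, if_false]
        exact hA (Sum.inr (Sum.inl i))
      · rintro p (hp | ⟨i, h1, h2, hp⟩)
        · exact Or.inl (hP'P hp)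
        · by_cases h : i = k
          · simp only [h, if_true] at hp
            exact Or.inl (hYP hp)
          · simp only [h, if_false] at hp
            exact Or.inr ⟨i, h1, by omega, hA (Sum.inr (Sum.inl i)) hp⟩
    · refine ⟨fun i => A (Sum.inr (Sum.inl i)), g, C b, Y, ?_, by simp, hYP.trans hP,
        (hC1 b).trans ((hA (Sum.inr (Sum.inr b))).trans hP), hC2 b, hC3 b, ?_, ?_, hL, ?_⟩
      · intro i hi
        simp only [hi.ne, if_false]
        exact ⟨Subset.rfl, hg i hi⟩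
      · rintro p (hp | ⟨i, h1, h2, _⟩)
        · exact hP2 b p hp
        · omega
      · intro i hi i' hi' hii
        exact (hWS (Sum.inl ()) (Sum.inr (Sum.inr b)) (Sum.inr (Sum.inl i)) (Sum.inr (Sum.inl i'))
          (mem_union_right _ (mem_image.2 ⟨(b, i, i'), by simp [hi, hb, hi'], rfl⟩))
          (by simp) (by simp) (by simp) (by simp) (by simp) (by simpa using hii)).mono
          (hY.trans hX') (hC1 b) Subset.rfl Subset.rfl
      · intro Z hZ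
        simp only [if_true] at hZ ⊢
        exact hs3 Z (hZ.trans hY)
  · intro j hj
    rcases Nat.lt_succ_iff_lt_or_eq.1 hj with hj | rfl
    · simp only [hj.ne, if_false]
      exact ⟨(hc j hj).1, hV j hj⟩
    · simp only [if_true]
      exact ⟨hs1, (Nat.mul_le_mul_right _ (Nat.pow_le_pow_right hΛ (by omega))).trans hY2⟩

theorem main3 {S : Finset Pt} (hS : GP S) {n a β m μ : ℕ} (hN : NC n S) (hn1 : 1 ≤ n)
    (hn : n ≤ β * (a + 2)) (hm : m = 2 * ((3 * β + 3) ^ 4 + 1) ^ 2 + 2) (hμ : m ≤ 2 ^ μ) :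
    S.card < Gg m n ^ m * Bb m μ (((a + n).choose a) ^ 8) := by
  by_contra hc
  have hΘ : 1 ≤ ((a + n).choose a) ^ 8 :=
    Nat.succ_le_of_lt (pow_pos (Nat.choose_pos (by omega)) _)
  have hall : ∀ k ≤ m, ∃ U P σ, Inv S m μ n (((a + n).choose a) ^ 8) k U P σ := by
    intro k
    induction k with
    | zero =>
      intro _
      exact ⟨fun _ => ∅, S, fun _ => 0, Subset.rfl, fun _ => empty_subset _, by simp, by simp,
        by simpa using hc⟩
    | succ k ih =>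
      intro hk
      obtain ⟨U, P, σ, h⟩ := ih (by omega)
      exact step hS hN hn1 hΘ hμ (by omega) h
  obtain ⟨U, P, σ, h1, h2, h3, h4, h5⟩ := hall m le_rfl
  have hB : 1 ≤ Bb m μ (((a + n).choose a) ^ 8) := by
    unfold Bb Om
    have := Lam_pos m
    exact Nat.succ_le_of_lt (by positivity)
  obtain ⟨w, hw⟩ : P.Nonempty := card_pos.1 (by simp at h5; omega)
  refine select hS hN hn hm U w σ (fun j hj => (h3 j hj).mono (fun _ _ => Subset.rfl) ?_) ?_ ?_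
  · rintro p (rfl | hp)
    · exact Or.inl hw
    · exact Or.inr hp
  · intro j hj
    have := (h4 j hj).2
    simp only [Nat.sub_self, pow_zero, one_mul] at this
    rwa [mul_comm]
  · intro j hj
    have a1 := (h4 j hj).2
    have a2 := (h4 j hj).1
    simp only [Nat.sub_self, pow_zero, one_mul] at a1
    exact card_pos.1 (lt_of_lt_of_le (by positivity) a1)

end Pool.Agent.P.MP_358d01_co.H51
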