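import Pool.Agent.P.MP_358d01_co.H51.VC
import Pool.Agent.P.MP_358d01_co.H51.Order

set_option autoImplicit false

namespace Pool.Agent.P.MP_358d01_co.H51

open Finset

/-- the data kept for the cluster number `j` -/
def Good (S : Finset Pt) (j : ℕ) (U : ℕ → Finset Pt) (Q : Set Pt) (σ : ℕ) : Prop :=
  ∃ (V : ℕ → Finset Pt) (g : ℕ → Pt) (C Xh : Finset Pt),
    (∀ i < j, U i ⊆ V i ∧ g i ∈ V i) ∧ U j ⊆ Xh ∧ Xh ⊆ S ∧ C ⊆ S ∧ C.Nonempty ∧ C.card ≤ 4 ∧
    (∀ w ∈ Q, w ∈ convexHull ℝ (C : Set Pt) ∧ w ∉ C) ∧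
    (∀ i < j, ∀ i' < j, i ≠ i' → WS Xh C (V i) (V i')) ∧
    (∀ c ∈ C, ∀ c' ∈ C, ∃ φ : Pt → ℝ, IsAff φ ∧ φ c = 0 ∧ φ c' = 0 ∧ ∀ x ∈ Xh, 0 < φ x) ∧
    (∀ Y ⊆ U j, σ ≤ Y.card → ∃ x ∈ Y, ∃ y ∈ Y, x ≠ y ∧ NWd j g C x y)

lemma Good.mono {S : Finset Pt} {j σ : ℕ} {U U' : ℕ → Finset Pt} {Q Q' : Set Pt}
    (h : Good S j U Q σ) (hU : ∀ i ≤ j, U' i ⊆ U i) (hQ : Q' ⊆ Q) : Good S j U' Q' σ := by
  obtain ⟨V, g, C, Xh, h1, h2, h3, h4, h5, h6, h7, h8, h9, h10⟩ := h
  exact ⟨V, g, C, Xh, fun i hi => ⟨(hU i hi.le).trans (h1 i hi).1, (h1 i hi).2⟩,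
    (hU j le_rfl).trans h2, h3, h4, h5, h6, fun w hw => h7 w (hQ hw), h8, h9,
    fun Y hY => h10 Y (hY.trans (hU j le_rfl))⟩

lemma Good.ne {S : Finset Pt} {j σ : ℕ} {U : ℕ → Finset Pt} {Q : Set Pt}
    (h : Good S j U Q σ) {i i' : ℕ} (hi : i < j) (hi' : i' < j) (hii : i ≠ i') {x w p q : Pt}
    (hx : x ∈ U j) (hw : w ∈ Q) (hp : p ∈ U i) (hq : q ∈ U i') : D x w p q ≠ 0 := by
  obtain ⟨V, g, C, Xh, h1, h2, h3, h4, h5, h6, h7, h8, h9, h10⟩ := h
  exact h8 i hi i' hi' hii x (mem_hull (h2 hx)) w (h7 w hw).1 p (mem_hull ((h1 i hi).1 hp))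
    q (mem_hull ((h1 i' hi').1 hq))

def Exposes (Z : Finset Pt) (Q : Set Pt) : Prop :=
  ∀ z ∈ Z, ∃ z', z' ≠ z ∧ ∃ φ : Pt → ℝ, IsAff φ ∧ φ z = 0 ∧ φ z' = 0 ∧
    (∀ p ∈ Z, p ≠ z → p ≠ z' → 0 < φ p) ∧ ∀ p ∈ Q, 0 < φ p

lemma Exposes.conv {Z : Finset Pt} {Q : Set Pt} (h : Exposes Z Q) : Conv Z := by
  intro z hz hc
  obtain ⟨z', hne, φ, hφ, h1, h2, h3, _⟩ := h z hz
  have := hφ.hull_pos_or_eq (A := ((Z.erase z : Finset Pt) : Set Pt)) h2 (by
    intro a ha
    have ha' := mem_erase.1 (mem_coe.1 ha)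
    by_cases h : a = z'
    · exact Or.inr h
    · exact Or.inl (h3 a ha'.2 ha'.1 h)) hc
  rcases this with h | h
  · linarith
  · exact hne h.symm

lemma D_cyc (a b c e : Pt) : D b c a e = D a b c e := by unfold D; ring
lemma D_p1 (x c p g : Pt) : D x c p g = D c g p x := by unfold D; ring
lemma D_p2 (x c p g : Pt) : D x c p g = D x p g c := by unfold D; ring
lemma D_p3 (x b g p : Pt) : D x b g p = - D b g p x := by unfold D; ring

lemma exists_consec (K : Finset ℕ) (hK : 2 ≤ K.card) {k : ℕ} (hk : k ∈ K) :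
    ∃ a ∈ K, ∃ b ∈ K, a < b ∧ (k = a ∨ k = b) ∧ ∀ l ∈ K, l ≠ a → l ≠ b → l < a ∨ b < l := by
  by_cases h : (K.filter (fun l => k < l)).Nonempty
  · have hb := mem_filter.1 ((K.filter (fun l => k < l)).min'_mem h)
    refine ⟨k, hk, _, hb.1, hb.2, Or.inl rfl, fun l hl h1 h2 => ?_⟩
    by_cases h3 : k < l
    · have := (K.filter (fun l => k < l)).min'_le l (mem_filter.2 ⟨hl, h3⟩)
      omega
    · omega
  · have hne : (K.erase k).Nonempty := card_pos.1 (by rw [card_erase_of_mem hk]; omega)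
    have ha := mem_erase.1 ((K.erase k).max'_mem hne)
    have hle : ∀ l ∈ K, l ≤ k := by
      intro l hl
      by_contra hc
      exact h ⟨l, mem_filter.2 ⟨hl, not_le.1 hc⟩⟩
    refine ⟨_, ha.2, k, hk, lt_of_le_of_ne (hle _ ha.2) ha.1, Or.inr rfl, fun l hl h1 h2 => ?_⟩
    have := (K.erase k).le_max' l (mem_erase.2 ⟨h2, hl⟩)
    omega

open Classical in
lemma exposes_of_allT (f : ℕ → Pt) (K : Finset ℕ) (hK : 2 ≤ K.card) {c : Pt} {ζ : ℝ}
    (hinj : ∀ a ∈ K, ∀ b ∈ K, a < b → f a ≠ f b)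
    (hall : AllT (fun x y z => 0 < ζ * D (f x) (f y) (f z) c) K) {Q : Set Pt}
    (hQ : ∀ a ∈ K, ∀ b ∈ K, a < b → ∀ p ∈ Q, 0 < ζ * D (f a) (f b) p c) :
    Exposes (K.image f) Q := by
  intro z hz
  obtain ⟨k, hk, rfl⟩ := mem_image.1 hz
  obtain ⟨a, ha, b, hb, hab, hkab, hl⟩ := exists_consec K hK hk
  have hφ := (isAff_D3 (f a) (f b) c).const_mul ζ
  have key : ∀ p ∈ K.image f, p ≠ f a → p ≠ f b → 0 < ζ * D (f a) (f b) p c := by
    intro p hp h1 h2
    obtain ⟨l, hlK, rfl⟩ := mem_image.1 hp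
    rcases hl l hlK (fun h => h1 (by rw [h])) (fun h => h2 (by rw [h])) with h | h
    · rw [D_cyc]; exact hall l hlK a ha b hb h hab
    · exact hall a ha b hb l hlK hab h
  rcases hkab with rfl | rfl
  · exact ⟨f b, (hinj k ha b hb hab).symm, _, hφ, by simp [D_self13], by simp [D_self23], key,
      hQ k ha b hb hab⟩
  · exact ⟨f a, hinj a ha k hb hab, _, hφ, by simp [D_self23], by simp [D_self13],
      fun p hp h1 h2 => key p hp h2 h1, hQ a ha k hb hab⟩

lemma gp1 (x y z u g c : Pt) :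
    D x y u c * D y z g c = D x y z c * D y u g c + D x y g c * D y z u c := by unfold D; ring
lemma gp2 (x y z u g c : Pt) :
    D x z u c * D y z g c = D x y z c * D z u g c + D x z g c * D y z u c := by unfold D; ring

lemma tr_of_chain (f : ℕ → Pt) (K : Finset ℕ) {c g : Pt} (ζ : ℝ)
    (h : ∀ a ∈ K, ∀ b ∈ K, a < b → 0 < D (f a) (f b) g c) :
    Tr (fun x y z => 0 < ζ * D (f x) (f y) (f z) c) K := by
  intro x hx y hy z hz u hu hxy hyz hzu h1 h2
  have e1 := gp1 (f x) (f y) (f z) (f u) g c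
  have e2 := gp2 (f x) (f y) (f z) (f u) g c
  have a1 := h y hy z hz hyz
  constructor
  · have : 0 < (ζ * D (f x) (f y) (f u) c) * D (f y) (f z) g c := by
      rw [mul_assoc, e1, mul_add, ← mul_assoc, mul_left_comm]
      exact add_pos (mul_pos h1 (h y hy u hu (by omega))) (mul_pos (h x hx y hy hxy) h2)
    exact (mul_pos_iff_of_pos_right a1).1 this
  · have : 0 < (ζ * D (f x) (f z) (f u) c) * D (f y) (f z) g c := by
      rw [mul_assoc, e2, mul_add, ← mul_assoc, mul_left_comm]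
      exact add_pos (mul_pos h1 (h z hz u hu hzu)) (mul_pos (h x hx z hz (by omega)) h2)
    exact (mul_pos_iff_of_pos_right a1).1 this

lemma cc {S X : Finset Pt} (hS : GP S) {n a : ℕ} (hN : NC n S) (hX : X ⊆ S) {c g : Pt}
    (hc : c ∈ S) {ζ : ℝ} (hζ : ζ ≠ 0) {Q : Set Pt}
    (hch : Chain (fun x y => 0 < D x y g c ∧ ∀ p ∈ Q, 0 < ζ * D x y p c) X
      ((a + n).choose a + 1)) :
    ∃ Z ⊆ X, Z.card = a + 2 ∧ Exposes Z Q := by
  classical
  obtain ⟨f, h1, h2⟩ := hch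
  have hord : ∀ x ∈ range ((a + n).choose a + 1), ∀ y ∈ range ((a + n).choose a + 1), x < y →
      0 < D (f x) (f y) g c := fun x _ y hy hxy => (h2 x y hxy (mem_range.1 hy)).1
  have hinj : ∀ x ∈ range ((a + n).choose a + 1), ∀ y ∈ range ((a + n).choose a + 1), x < y →
      f x ≠ f y := by
    intro x hx y hy hxy h
    have := hord x hx y hy hxy
    rw [h, D_self12] at this
    exact lt_irrefl _ this
  have hcard : ∀ K ⊆ range ((a + n).choose a + 1), (K.image f).card = K.card := by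
    intro K hK
    apply card_image_of_injOn
    intro x hx y hy hxy
    rcases lt_trichotomy x y with h | h | h
    · exact absurd hxy (hinj x (hK hx) y (hK hy) h)
    · exact h
    · exact absurd hxy.symm (hinj y (hK hy) x (hK hx) h)
  have hsub : ∀ K ⊆ range ((a + n).choose a + 1), K.image f ⊆ X := by
    intro K hK p hp
    obtain ⟨x, hx, rfl⟩ := mem_image.1 hp
    exact h1 x (mem_range.1 (hK hx))
  obtain ⟨K, hK, h | h⟩ := cups_caps (fun x y z => 0 < ζ * D (f x) (f y) (f z) c)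
    (fun x y z => 0 < -ζ * D (f x) (f y) (f z) c) a n (range ((a + n).choose a + 1))
    (by
      intro x hx y hy z hz hxy hyz
      have k1 := hord x hx y hy hxy
      have k2 := hord y hy z hz hyz
      have hD := hS _ (hX (h1 x (mem_range.1 hx))) _ (hX (h1 y (mem_range.1 hy)))
        _ (hX (h1 z (mem_range.1 hz))) c hc (hinj x hx y hy hxy) (hinj x hx z hz (by omega))
        (by intro h; rw [h, D_self14] at k1; exact lt_irrefl _ k1) (hinj y hy z hz hyz)
        (by intro h; rw [h, D_self24] at k1; exact lt_irrefl _ k1)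
        (by intro h; rw [h, D_self24] at k2; exact lt_irrefl _ k2)
      rcases lt_or_gt_of_ne (mul_ne_zero hζ hD) with h | h
      · right; linarith
      · left; exact h)
    (tr_of_chain f _ ζ hord) (tr_of_chain f _ (-ζ) hord) (by simp)
  · refine ⟨K.image f, hsub K hK, by rw [hcard K hK, h.1], exposes_of_allT f K (by omega)
      (fun x hx y hy => hinj x (hK hx) y (hK hy)) h.2 ?_⟩
    intro x _ y hy hxy
    exact (h2 x y hxy (mem_range.1 (hK hy))).2
  · have he : Exposes (K.image f) ∅ := exposes_of_allT f K (by omega)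
      (fun x hx y hy => hinj x (hK hx) y (hK hy)) h.2 (by simp)
    have := hN _ ((hsub K hK).trans hX) he.conv
    rw [hcard K hK, h.1] at this
    omega

lemma Chain.imp {α : Type*} {r r' : α → α → Prop} {X : Finset α} {s : ℕ} (h : Chain r X s)
    (hr : ∀ x ∈ X, ∀ y ∈ X, r x y → r' x y) : Chain r' X s := by
  obtain ⟨f, h1, h2⟩ := h
  exact ⟨f, h1, fun i j hij hj => hr _ (h1 i (by omega)) _ (h1 j hj) (h2 i j hij hj)⟩

def Rel (C : Finset Pt) (g0 gi c : Pt) (θ : ℝ) (x x' : Pt) : Prop :=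
  (∀ b ∈ C, 0 < D x x' g0 b) ∧ (∀ b ∈ C, 0 < θ * D x x' gi b) ∧
    (∀ b ∈ C, b ≠ c → 0 < θ * D x x' b c)

lemma rel_cover {S C : Finset Pt} (hS : GP S) (hC : C ⊆ S) (hne : C.Nonempty) {x y g0 gi : Pt}
    (hx : x ∈ S) (hy : y ∈ S) (h0 : ∀ b ∈ C, 0 < D x y g0 b) {θ : ℝ} (hθ : θ ≠ 0)
    (h1 : ∀ b ∈ C, 0 < θ * D x y gi b) : ∃ c ∈ C, Rel C g0 gi c θ x y := by
  obtain ⟨c, hc, htop⟩ := exists_top (fun b c => 0 < θ * D x y b c) C hne
    (by
      intro u hu v hv w hw k1 k2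
      have := trans_axis (x := x) (c := y) (u := u) (v := v) (w := w) (g := g0) (α := -1)
        (β := -1) (γ := -1) (τ := θ) (by rw [D_swap34]; simpa using h0 u hu)
        (by rw [D_swap34]; simpa using h0 v hv) (by rw [D_swap34]; simpa using h0 w hw)
        (by simpa using k1) (by simpa using k2)
      simpa using this)
    (by
      intro u hu v hv huv
      have k1 := h0 u hu
      have k2 := h0 v hv
      have hD := hS x hx y hy u (hC hu) v (hC hv)
        (by intro h; rw [h, D_self12] at k1; exact lt_irrefl _ k1)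
        (by intro h; rw [h, D_self14] at k1; exact lt_irrefl _ k1)
        (by intro h; rw [h, D_self14] at k2; exact lt_irrefl _ k2)
        (by intro h; rw [h, D_self24] at k1; exact lt_irrefl _ k1)
        (by intro h; rw [h, D_self24] at k2; exact lt_irrefl _ k2) huv
      rcases lt_or_gt_of_ne (mul_ne_zero hθ hD) with h | h
      · right; rw [D_swap34]; linarith
      · left; exact h)
  exact ⟨c, hc, h0, h1, htop⟩

lemma thresh {S : Finset Pt} (hS : GP S) {n a : ℕ} (hN : NC n S) {j σ : ℕ} {U : ℕ → Finset Pt}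
    {Q : Set Pt} (hG : Good S j U Q σ) (hcard : σ * ((a + n).choose a) ^ 8 ≤ (U j).card)
    {y : ℕ → Pt} (hy : ∀ i ≤ j, y i ∈ U i) {w : Pt} (hw : w ∈ Q) {ε : ℝ} (hε : ε = 1 ∨ ε = -1)
    (It : Finset ℕ) (hIt : ∀ i ∈ It, 0 < i ∧ i < j ∧ 0 < ε * D w (y 0) (y i) (y j))
    (hne : It.Nonempty) :
    ∃ e ∈ It, ∃ e' ∈ It, ∀ ν : ℝ, (ν = 1 ∨ ν = -1) → ∀ I ⊆ It, I.Nonempty →
      (∀ i ∈ I, i ≠ e ∧ i ≠ e' ∧ 0 < ν * D w (y e) (y j) (y i)) →
      ∃ Z ⊆ U j, Z.card = a + 2 ∧ Exposes Z (Q ∪ ⋃ i ∈ I, (U i : Set Pt)) := by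
  classical
  have hG' := hG
  obtain ⟨V, g, C, Xh, hV, hXh, hXS, hCS, hCne, hC4, hQ, hWS, hL, hNW⟩ := hG'
  have hεε : ε * ε = 1 := by rcases hε with h | h <;> simp [h]
  have hε0 : ε ≠ 0 := by rcases hε with h | h <;> simp [h]
  have hs1 : 1 ≤ (a + n).choose a := Nat.choose_pos (by omega)
  set s := (a + n).choose a with hs
  -- items lie on a fixed side of the planes through the cluster, the tetrahedron and `g 0`
  have hside : ∀ i ∈ It, ∀ x ∈ Xh, ∀ b ∈ C, ∀ p ∈ V i, 0 < -ε * D x b (g 0) p := by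
    intro i hi x hx b hb p hp
    obtain ⟨i0, ij, hD⟩ := hIt i hi
    refine (hWS 0 (by omega) i ij (by omega)).sign (mem_hull (hXh (hy j le_rfl))) (mem_hull hx)
      (hQ w hw).1 (mem_hull hb) (mem_hull ((hV 0 (by omega)).1 (hy 0 (by omega))))
      (mem_hull (hV 0 (by omega)).2) (mem_hull ((hV i ij).1 (hy i ij.le))) (mem_hull hp) ?_
    rw [D_p3]; linarith
  have hA : ∀ i ∈ It, ∃ θ, (θ = ε ∨ θ = -ε) ∧ ∃ c ∈ C,
      Chain (Rel C (g 0) (g i) c θ) (U j) (s + 1) := by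
    intro i hi
    obtain ⟨i0, ij, hD⟩ := hIt i hi
    by_contra hno
    push Not at hno
    obtain ⟨Y, hY, hanti, hc⟩ := mirsky_iter (({ε, -ε} : Finset ℝ) ×ˢ C)
      (fun k => Rel C (g 0) (g i) k.2 k.1) s (U j) (by
        rintro ⟨θ, c⟩ hk x hx x' hx' x'' hx'' ⟨a1, a2, a3⟩ ⟨b1, b2, b3⟩
        have hc : c ∈ C := (mem_product.1 hk).2
        refine ⟨fun b hb => ?_, fun b hb => ?_, fun b hb hbc => ?_⟩
        · have := trans_line ((isAff_D1 b (g 0) (g i)).const_mul (-ε)) (p := g 0) (q := b)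
            (by simp [D_self13]) (by simp [D_self12]) (hside i hi x (hXh hx) b hb _ (hV i ij).2)
            (hside i hi x' (hXh hx') b hb _ (hV i ij).2)
            (hside i hi x'' (hXh hx'') b hb _ (hV i ij).2) (κ := 1)
            (by simpa using a1 b hb) (by simpa using b1 b hb)
          simpa using this
        · exact trans_line ((isAff_D1 b (g 0) (g i)).const_mul (-ε)) (p := g i) (q := b)
            (by simp [D_self14]) (by simp [D_self12]) (hside i hi x (hXh hx) b hb _ (hV i ij).2)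
            (hside i hi x' (hXh hx') b hb _ (hV i ij).2)
            (hside i hi x'' (hXh hx'') b hb _ (hV i ij).2) (a2 b hb) (b2 b hb)
        · obtain ⟨φ, hφ, e1, e2, e3⟩ := hL b hb c hc
          exact trans_line hφ e1 e2 (e3 x (hXh hx)) (e3 x' (hXh hx')) (e3 x'' (hXh hx''))
            (a3 b hb hbc) (b3 b hb hbc))
      (by
        rintro ⟨θ, c⟩ hk
        have := mem_product.1 hk
        exact hno θ (by simpa using this.1) c this.2)
    have hK8 : (({ε, -ε} : Finset ℝ) ×ˢ C).card ≤ 8 := by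
      rw [card_product]
      have : ({ε, -ε} : Finset ℝ).card ≤ 2 := card_le_two
      nlinarith
    have hσ : σ ≤ Y.card := by
      have h1 : s ^ 8 * σ ≤ s ^ 8 * Y.card := by
        rw [mul_comm]
        exact hcard.trans (hc.trans (Nat.mul_le_mul_right _ (Nat.pow_le_pow_right hs1 hK8)))
      exact Nat.le_of_mul_le_mul_left h1 (by positivity)
    obtain ⟨x, hx, x', hx', hxx, hnw⟩ := hNW Y hY hσ
    have main : ∀ x ∈ Y, ∀ x' ∈ Y, (∀ b ∈ C, 0 < D x x' (g 0) b) →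
        ((∀ c ∈ C, 0 < D x x' (g i) c) ∨ (∀ c ∈ C, D x x' (g i) c < 0)) → False := by
      intro x hx x' hx' h0 h1
      obtain ⟨θ, hθ, h2⟩ : ∃ θ : ℝ, (θ = 1 ∨ θ = -1) ∧ ∀ b ∈ C, 0 < θ * D x x' (g i) b := by
        rcases h1 with h | h
        · exact ⟨1, Or.inl rfl, by simpa using h⟩
        · exact ⟨-1, Or.inr rfl, by simpa using h⟩
      obtain ⟨c, hc, hr⟩ := rel_cover hS hCS hCne (hXS (hXh (hY hx))) (hXS (hXh (hY hx'))) h0
        (θ := θ) (by rcases hθ with h | h <;> simp [h]) h2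
      refine hanti (θ, c) (mem_product.2 ⟨?_, hc⟩) x hx x' hx' hr
      rcases hθ with h | h <;> rcases hε with h' | h' <;> simp [h, h']
    rcases hnw 0 (by omega) with h | h
    · exact main x hx x' hx' h (hnw i ij)
    · refine main x' hx' x hx (fun b hb => by rw [D_swap12]; linarith [h b hb]) ?_
      rcases hnw i ij with h' | h'
      · exact Or.inr (fun b hb => by rw [D_swap12]; linarith [h' b hb])
      · exact Or.inl (fun b hb => by rw [D_swap12]; linarith [h' b hb])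
  have hB : ∀ i0 ∈ It, ∀ τ : ℝ, τ ≠ 0 → ∀ c ∈ C,
      Chain (Rel C (g 0) (g i0) c (τ * ε)) (U j) (s + 1) →
      ∀ I ⊆ It, (∀ i ∈ I, i ≠ i0 ∧ 0 < τ * D (y j) w (y i0) (y i)) →
      ∃ Z ⊆ U j, Z.card = a + 2 ∧ Exposes Z (Q ∪ ⋃ i ∈ I, (U i : Set Pt)) := by
    intro i0 hi0 τ hτ c hc hch I hI hsg
    refine cc hS hN (hXh.trans hXS) (hCS hc) (g := g 0) (mul_ne_zero hτ hε0) (hch.imp ?_)
    rintro x hx x' _ ⟨a1, a2, a3⟩
    refine ⟨a1 c hc, ?_⟩
    rintro p (hp | hp)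
    · rcases ((isAff_D3 x x' c).const_mul (τ * ε)).hull_pos_or_eq (A := (C : Set Pt)) (z := c)
        (by simp [D_self34]) (by
          intro b hb
          by_cases h : b = c
          · exact Or.inr h
          · exact Or.inl (a3 b hb h)) (hQ p hp).1 with h | h
      · exact h
      · exact absurd (h ▸ hc) (hQ p hp).2
    · simp only [Set.mem_iUnion, mem_coe] at hp
      obtain ⟨i, hi, hp⟩ := hp
      have ij := (hIt i (hI hi)).2.1
      have i0j := (hIt i0 hi0).2.1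
      have k1 : 0 < τ * D x c (g i0) p :=
        (hWS i0 i0j i ij (hsg i hi).1.symm).sign (mem_hull (hXh (hy j le_rfl))) (mem_hull (hXh hx))
          (hQ w hw).1 (mem_hull hc) (mem_hull ((hV i0 i0j).1 (hy i0 i0j.le)))
          (mem_hull (hV i0 i0j).2) (mem_hull ((hV i ij).1 (hy i ij.le)))
          (mem_hull ((hV i ij).1 hp)) (hsg i hi).2
      have k2 := hside i0 hi0 x (hXh hx) c hc _ (hV i0 i0j).2
      have k3 := hside i (hI hi) x (hXh hx) c hc _ ((hV i ij).1 hp)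
      have := trans_axis (x := x) (c := c) (u := x') (v := g i0) (w := p) (g := g 0) (α := 1)
        (β := ε) (γ := ε) (τ := τ) (by rw [D_p2, one_mul]; exact a1 c hc)
        (by rw [D_swap34]; linarith) (by rw [D_swap34]; linarith)
        (by rw [D_p2, mul_one]; exact a2 c hc) (by rw [mul_assoc τ, hεε, mul_one]; exact k1)
      rwa [D_p2, mul_one] at this
  let lt : ℕ → ℕ → Prop := fun i i' => 0 < D (y j) w (y i) (y i')
  have htr : ∀ i ∈ It, ∀ i' ∈ It, ∀ i'' ∈ It, lt i i' → lt i' i'' → lt i i'' := by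
    intro i hi i' hi' i'' hi'' k1 k2
    have := trans_axis (x := y j) (c := w) (u := y i) (v := y i') (w := y i'') (g := y 0) (α := ε)
      (β := ε) (γ := ε) (τ := 1) (by rw [D_p1]; exact (hIt i hi).2.2)
      (by rw [D_p1]; exact (hIt i' hi').2.2) (by rw [D_p1]; exact (hIt i'' hi'').2.2)
      (by rw [one_mul, hεε, one_mul]; exact k1) (by rw [one_mul, hεε, one_mul]; exact k2)
    rwa [one_mul, hεε, one_mul] at this
  have htot : ∀ i ∈ It, ∀ i' ∈ It, i ≠ i' → lt i i' ∨ lt i' i := by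
    intro i hi i' hi' hii
    have ij := (hIt i hi).2.1
    have ij' := (hIt i' hi').2.1
    rcases lt_or_gt_of_ne (hG.ne ij ij' hii (hy j le_rfl) hw (hy i ij.le) (hy i' ij'.le)) with h | h
    · right; simp only [lt]; rw [D_swap34]; linarith
    · left; exact h
  have hasym : ∀ i i', lt i i' → ¬ lt i' i := by
    intro i i' k1 k2
    simp only [lt] at k1 k2
    rw [D_swap34] at k2; linarith
  let Pl : ℕ → Prop := fun i => ∃ c ∈ C, Chain (Rel C (g 0) (g i) c ε) (U j) (s + 1)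
  obtain ⟨e, he, he1, he2⟩ : ∃ e ∈ It, (∀ i ∈ It, lt i e → ¬ Pl i) ∧
      (Pl e ∨ ∀ i ∈ It, ¬ lt e i) := by
    by_cases hP : (It.filter Pl).Nonempty
    · have hsub := filter_subset Pl It
      obtain ⟨e, he, htop⟩ := exists_top (fun i i' => lt i' i) _ hP
        (fun x hx y hy z hz k1 k2 => htr z (hsub hz) y (hsub hy) x (hsub hx) k2 k1)
        (fun x hx y hy hxy => (htot x (hsub hx) y (hsub hy) hxy).symm)
      refine ⟨e, hsub he, fun i hi k hp => ?_, Or.inl (mem_filter.1 he).2⟩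
      by_cases h : i = e
      · rw [h] at k; exact hasym _ _ k k
      · exact hasym _ _ k (htop i (mem_filter.2 ⟨hi, hp⟩) h)
    · obtain ⟨e, he, htop⟩ := exists_top lt It hne htr htot
      refine ⟨e, he, fun i hi _ hp => hP ⟨i, mem_filter.2 ⟨hi, hp⟩⟩, Or.inr (fun i hi k => ?_)⟩
      by_cases h : i = e
      · rw [h] at k; exact hasym _ _ k k
      · exact hasym _ _ k (htop i hi h)
  obtain ⟨e', he', he3⟩ : ∃ e' ∈ It, ∀ i ∈ It, lt i e → lt e' e ∧ (i ≠ e' → lt i e') := by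
    by_cases hP : (It.filter (fun i => lt i e)).Nonempty
    · have hsub := filter_subset (fun i => lt i e) It
      obtain ⟨e', he', htop⟩ := exists_top lt _ hP
        (fun x hx y hy z hz => htr x (hsub hx) y (hsub hy) z (hsub hz))
        (fun x hx y hy => htot x (hsub hx) y (hsub hy))
      exact ⟨e', hsub he', fun i hi k =>
        ⟨(mem_filter.1 he').2, htop i (mem_filter.2 ⟨hi, k⟩)⟩⟩
    · exact ⟨e, he, fun i hi k => absurd ⟨i, mem_filter.2 ⟨hi, k⟩⟩ hP⟩
  refine ⟨e, he, e', he', ?_⟩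
  rintro ν (rfl | rfl) I hI ⟨i0, hi0⟩ hsg
  · have hlt : ∀ i ∈ I, lt e i := by
      intro i hi
      have := (hsg i hi).2.2
      rwa [one_mul, D_cyc] at this
    rcases he2 with ⟨c, hc, hch⟩ | h
    · exact hB e he 1 one_ne_zero c hc (by rwa [one_mul]) I hI
        (fun i hi => ⟨(hsg i hi).1, by rw [one_mul]; exact hlt i hi⟩)
    · exact absurd (hlt i0 hi0) (h i0 (hI hi0))
  · have hlt : ∀ i ∈ I, lt i e := by
      intro i hi
      have := (hsg i hi).2.2
      rw [D_cyc] at this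
      simp only [lt]; rw [D_swap34]; linarith
    obtain ⟨θ, hθ, c, hc, hch⟩ := hA e' he'
    rcases hθ with rfl | rfl
    · exact absurd ⟨c, hc, hch⟩ (he1 e' he' (he3 i0 (hI hi0) (hlt i0 hi0)).1)
    · refine hB e' he' (-1) (by norm_num) c hc (by rwa [neg_one_mul]) I hI
        (fun i hi => ⟨(hsg i hi).2.1, ?_⟩)
      have := (he3 i (hI hi) (hlt i hi)).2 (hsg i hi).2.1
      simp only [lt] at this
      rw [D_swap34]; linarith

end Pool.Agent.P.MP_358d01_co.H51
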