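import Pool.Agent.P.MP_358d01_co.H51.Center

set_option autoImplicit false

namespace Pool.Agent.P.MP_358d01_co.H51

open Finset

/-- coefficients of the determinant as a linear form in the line coordinates of `x y` -/
def coef (g c : Pt) : Fin 6 → ℝ :=
  ![g 1 * c 2 - g 2 * c 1, g 2 * c 0 - g 0 * c 2, g 0 * c 1 - g 1 * c 0,
    c 0 - g 0, c 1 - g 1, c 2 - g 2]

/-- line coordinates -/
def lineC (x y : Pt) : Fin 6 → ℝ :=
  ![y 0 - x 0, y 1 - x 1, y 2 - x 2,
    x 1 * y 2 - x 2 * y 1, x 2 * y 0 - x 0 * y 2, x 0 * y 1 - x 1 * y 0]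

lemma D_eq_dot (x y g c : Pt) : D x y g c = ∑ k, coef g c k * lineC x y k := by
  simp [Fin.sum_univ_succ, coef, lineC, D]; ring

lemma exists_rel (s : Finset (Pt × Pt)) (hs : 6 < s.card) :
    ∃ l : s → ℝ, (∃ e, 0 < l e) ∧ ∀ x y : Pt, ∑ e : s, l e * D x y e.1.1 e.1.2 = 0 := by
  have hnl : ¬ LinearIndependent ℝ (fun e : s => coef e.1.1 e.1.2) := by
    intro h
    have := h.fintype_card_le_finrank
    simp at this
    omega
  obtain ⟨l, hl, e, he⟩ := Fintype.not_linearIndependent_iff.1 hnl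
  have key : ∀ x y : Pt, ∑ e : s, l e * D x y e.1.1 e.1.2 = 0 := by
    intro x y
    simp only [D_eq_dot, mul_sum]
    rw [sum_comm]
    refine sum_eq_zero (fun k _ => ?_)
    have := congrFun hl k
    simp only [Finset.sum_apply, Pi.smul_apply, smul_eq_mul, Pi.zero_apply] at this
    simp only [← mul_assoc, ← sum_mul, this, zero_mul]
  rcases lt_or_gt_of_ne he with h | h
  · refine ⟨fun e => - l e, ⟨e, by simpa using h⟩, fun x y => ?_⟩
    simp only [neg_mul, sum_neg_distrib, key, neg_zero]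
  · exact ⟨l, ⟨e, h⟩, key⟩

open Classical in
/-- the sign pattern of the line `x y` -/
noncomputable def patt (E : Finset (Pt × Pt)) (q : Pt × Pt) : Finset (Pt × Pt) :=
  E.filter (fun e => 0 < D q.1 q.2 e.1 e.2)

open Classical in
lemma patt_count (E : Finset (Pt × Pt)) (L : Finset (Pt × Pt)) {M : ℕ} (hM : E.card ≤ M)
    (h1 : 1 ≤ M) : (L.image (patt E)).card ≤ 7 * M ^ 6 := by
  refine (card_le_card_shatterer _).trans ?_
  have hsub : (L.image (patt E)).shatterer ⊆ (range 7).biUnion (fun k => powersetCard k E) := by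
    intro s hs
    have hsh := mem_shatterer.1 hs
    have hsE : s ⊆ E := by
      obtain ⟨u, hu, hsu⟩ := hsh.exists_superset
      obtain ⟨q, _, rfl⟩ := mem_image.1 hu
      exact hsu.trans (filter_subset _ _)
    refine mem_biUnion.2 ⟨s.card, mem_range.2 ?_, mem_powersetCard.2 ⟨hsE, rfl⟩⟩
    by_contra hc
    obtain ⟨l, ⟨e0, he0⟩, hl⟩ := exists_rel s (by omega)
    obtain ⟨u, hu, hsu⟩ := hsh (t := s.filter (fun e => ∃ h : e ∈ s, 0 < l ⟨e, h⟩))
      (filter_subset _ _)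
    obtain ⟨q, _, rfl⟩ := mem_image.1 hu
    have hiff : ∀ e : s, 0 < l e ↔ 0 < D q.1 q.2 e.1.1 e.1.2 := by
      intro e
      have h := Finset.ext_iff.1 hsu e.1
      simp only [mem_inter, patt, mem_filter, e.2, hsE e.2, true_and] at h
      exact ⟨fun h' => h.2 ⟨trivial, h'⟩, fun h' => (h.1 h').2⟩
    have hpos : 0 < ∑ e : s, l e * D q.1 q.2 e.1.1 e.1.2 := by
      apply sum_pos'
      · intro e _
        by_cases h : 0 < l e
        · exact (mul_pos h ((hiff e).1 h)).le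
        · exact mul_nonneg_of_nonpos_of_nonpos (not_lt.1 h) (not_lt.1 (fun h' => h ((hiff e).2 h')))
      · exact ⟨e0, mem_univ _, mul_pos he0 ((hiff e0).1 he0)⟩
    rw [hl] at hpos
    exact lt_irrefl _ hpos
  refine (card_le_card hsub).trans ?_
  refine (card_biUnion_le_card_mul _ _ (M ^ 6) ?_).trans (by simp)
  intro k hk
  rw [card_powersetCard]
  refine (Nat.choose_le_pow _ _).trans ((Nat.pow_le_pow_left hM k).trans ?_)
  exact Nat.pow_le_pow_right h1 (by have := mem_range.1 hk; omega)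

open Classical in
lemma halving {π : Type*} (R : ℕ) (hR : 0 < R) (W : ℕ → π → Prop) (T : ℕ) (P : Finset π)
    (hP : P.card < 2 ^ T) (hw : ∀ p ∈ P, 2 * ((range R).filter (fun b => W b p)).card ≤ R) :
    ∃ Bs ⊆ range R, Bs.card ≤ T ∧ ∀ p ∈ P, ∃ b ∈ Bs, ¬ W b p := by
  induction T generalizing P with
  | zero =>
    have : P = ∅ := card_eq_zero.1 (by simpa using hP)
    exact ⟨∅, empty_subset _, le_rfl, by simp [this]⟩
  | succ T ih =>
    have hsum : ∑ b ∈ range R, (P.filter (fun p => W b p)).card =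
        ∑ p ∈ P, ((range R).filter (fun b => W b p)).card := by
      simp only [card_filter]
      exact sum_comm
    obtain ⟨b, hb, hle⟩ : ∃ b ∈ range R, 2 * (P.filter (fun p => W b p)).card ≤ P.card := by
      apply exists_le_of_sum_le ⟨0, mem_range.2 hR⟩
      rw [← mul_sum, hsum, mul_sum]
      refine (sum_le_sum hw).trans ?_
      simp [mul_comm]
    obtain ⟨Bs, h1, h2, h3⟩ := ih (P.filter (fun p => W b p)) (by rw [pow_succ] at hP; omega)
      (fun p hp => hw p (mem_filter.1 hp).1)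
    refine ⟨insert b Bs, insert_subset hb h1, (card_insert_le _ _).trans (by omega), ?_⟩
    intro p hp
    by_cases h : W b p
    · obtain ⟨b', hb', h'⟩ := h3 p (mem_filter.2 ⟨hp, h⟩)
      exact ⟨b', mem_insert_of_mem hb', h'⟩
    · exact ⟨b, mem_insert_self _ _, h⟩

lemma nested {α : Type*} (NW : ℕ → α → α → Prop) (Ω : ℕ) (Bs : Finset ℕ)
    (X : Finset α) (h : ∀ x ∈ X, ∀ y ∈ X, x ≠ y → ∃ b ∈ Bs, NW b x y)
    (hX : 2 * Ω ^ Bs.card ≤ X.card) :
    ∃ b ∈ Bs, ∃ X' ⊆ X, ∃ σ, 1 ≤ σ ∧ Ω * σ ≤ X'.card ∧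
      ∀ Y ⊆ X', σ ≤ Y.card → ∃ x ∈ Y, ∃ y ∈ Y, x ≠ y ∧ NW b x y := by
  classical
  induction Bs using Finset.induction_on generalizing X with
  | empty =>
    obtain ⟨x, hx, y, hy, hxy⟩ := one_lt_card.1 (show 1 < X.card by simp at hX; omega)
    simpa using h x hx y hy hxy
  | insert b Bs hb ih =>
    obtain ⟨Y0, hY0, hmax⟩ := (X.powerset.filter
      (fun Y : Finset α => ∀ x ∈ Y, ∀ y ∈ Y, x ≠ y → ¬ NW b x y)).exists_max_image card
      ⟨∅, by simp⟩
    obtain ⟨h1, h2⟩ := mem_filter.1 hY0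
    have h1' := mem_powerset.1 h1
    by_cases hc : Ω * (Y0.card + 1) ≤ X.card
    · refine ⟨b, mem_insert_self _ _, X, Subset.rfl, Y0.card + 1, by omega, hc, ?_⟩
      intro Y hY hcard
      by_contra hno
      push Not at hno
      have := hmax Y (mem_filter.2 ⟨mem_powerset.2 hY, hno⟩)
      omega
    · rw [card_insert_of_notMem hb, pow_succ] at hX
      have h3 : Ω * (2 * Ω ^ Bs.card) < Ω * (Y0.card + 1) := by
        calc Ω * (2 * Ω ^ Bs.card) = 2 * (Ω ^ Bs.card * Ω) := by ring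
          _ ≤ X.card := hX
          _ < _ := not_le.1 hc
      have h4 := Nat.lt_of_mul_lt_mul_left h3
      obtain ⟨b', hb', X', hX', r⟩ := ih Y0 (by
        intro x hx y hy hxy
        obtain ⟨b', hb', hn⟩ := h x (h1' hx) y (h1' hy) hxy
        rcases mem_insert.1 hb' with rfl | h'
        · exact absurd hn (h2 x hx y hy hxy)
        · exact ⟨b', h', hn⟩) (by omega)
      exact ⟨b', mem_insert_of_mem hb', X', hX'.trans h1', r⟩

/-- none of the planes through `x`, `y`, `g i` cuts `C` -/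
def NWd (j : ℕ) (g : ℕ → Pt) (C : Finset Pt) (x y : Pt) : Prop :=
  ∀ i < j, (∀ c ∈ C, 0 < D x y (g i) c) ∨ (∀ c ∈ C, D x y (g i) c < 0)

lemma mem_hull {A : Finset Pt} {a : Pt} (h : a ∈ A) : a ∈ convexHull ℝ (A : Set Pt) :=
  subset_convexHull _ _ (mem_coe.2 h)

lemma D_self12 (a c e : Pt) : D a a c e = 0 := by unfold D; ring
lemma D_self13 (a b e : Pt) : D a b a e = 0 := by unfold D; ring
lemma D_self14 (a b c : Pt) : D a b c a = 0 := by unfold D; ring
lemma D_self23 (a b e : Pt) : D a b b e = 0 := by unfold D; ring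
lemma D_self24 (a b c : Pt) : D a b c b = 0 := by unfold D; ring
lemma D_self34 (a b c : Pt) : D a b c c = 0 := by unfold D; ring

lemma vc_pick {S X : Finset Pt} (hS : GP S) (hX : X ⊆ S) {m μ j Ω : ℕ} (hm : 1 ≤ m)
    (hμ : m ≤ 2 ^ μ) (hj : j ≤ m) (hΩ : 1 ≤ Ω) (V : ℕ → Finset Pt) (g : ℕ → Pt)
    (hg : ∀ i < j, g i ∈ V i ∧ g i ∈ S) (C : ℕ → Finset Pt)
    (hC : ∀ b < 2 * m, C b ⊆ S ∧ (C b).Nonempty ∧ (C b).card ≤ 4)
    (hW : ∀ i < j, ∀ b < 2 * m, ∀ b' < 2 * m, b ≠ b' → WS X (V i) (C b) (C b'))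
    (hc : 2 * Ω ^ (12 * μ + 21) ≤ X.card) :
    ∃ b < 2 * m, ∃ X' ⊆ X, ∃ σ, 1 ≤ σ ∧ Ω * σ ≤ X'.card ∧
      ∀ Y ⊆ X', σ ≤ Y.card → ∃ x ∈ Y, ∃ y ∈ Y, x ≠ y ∧ NWd j g (C b) x y := by
  classical
  let E : Finset (Pt × Pt) := ((range j).image g) ×ˢ ((range (2 * m)).biUnion C)
  have hE : E.card ≤ 8 * m ^ 2 := by
    rw [card_product]
    have h1 : ((range j).image g).card ≤ m := card_image_le.trans (by simpa using hj)
    have h2 : ((range (2 * m)).biUnion C).card ≤ (range (2 * m)).card * 4 :=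
      card_biUnion_le_card_mul _ _ _ (fun b hb => (hC b (mem_range.1 hb)).2.2)
    rw [card_range] at h2
    calc _ ≤ m * (2 * m * 4) := Nat.mul_le_mul h1 h2
      _ = 8 * m ^ 2 := by ring
  have hP : (X.offDiag.image (patt E)).card < 2 ^ (12 * μ + 21) := by
    refine (patt_count E _ hE (by nlinarith)).trans_lt ?_
    have h1 : m ^ 12 ≤ (2 ^ μ) ^ 12 := Nat.pow_le_pow_left hμ 12
    have h2 : 0 < (2 ^ μ) ^ 12 := by positivity
    calc 7 * (8 * m ^ 2) ^ 6 = 7 * 8 ^ 6 * m ^ 12 := by ring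
      _ ≤ 7 * 8 ^ 6 * (2 ^ μ) ^ 12 := Nat.mul_le_mul_left _ h1
      _ < 2 ^ 21 * (2 ^ μ) ^ 12 := Nat.mul_lt_mul_of_pos_right (by norm_num) h2
      _ = 2 ^ (12 * μ + 21) := by ring
  have hne : ∀ x ∈ X, ∀ y ∈ X, x ≠ y → ∀ i < j, ∀ b < 2 * m, ∀ c ∈ C b, D x y (g i) c ≠ 0 := by
    intro x hx y hy hxy i hi b hb c hc
    obtain ⟨b', hb', hbb⟩ : ∃ b' < 2 * m, b ≠ b' := by
      by_cases h : b = 0
      · exact ⟨1, by omega, by omega⟩
      · exact ⟨0, by omega, h⟩
    obtain ⟨c', hc'⟩ := (hC b' hb').2.1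
    have k1 := hW i hi b hb b' hb' hbb x (mem_hull hx) _ (mem_hull (hg i hi).1) c (mem_hull hc)
      c' (mem_hull hc')
    have k2 := hW i hi b hb b' hb' hbb y (mem_hull hy) _ (mem_hull (hg i hi).1) c (mem_hull hc)
      c' (mem_hull hc')
    refine hS x (hX hx) y (hX hy) _ (hg i hi).2 c ((hC b hb).1 hc) hxy ?_ ?_ ?_ ?_ ?_
    · rintro h; rw [← h, D_self12] at k1; exact k1 rfl
    · rintro h; rw [← h, D_self13] at k1; exact k1 rfl
    · rintro h; rw [← h, D_self12] at k2; exact k2 rfl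
    · rintro h; rw [← h, D_self13] at k2; exact k2 rfl
    · rintro h; rw [← h, D_self23] at k1; exact k1 rfl
  have hmem : ∀ x y : Pt, ∀ i < j, ∀ b < 2 * m, ∀ c ∈ C b,
      (g i, c) ∈ patt E (x, y) ↔ 0 < D x y (g i) c := by
    intro x y i hi b hb c hc
    have : (g i, c) ∈ E := mem_product.2 ⟨mem_image_of_mem _ (mem_range.2 hi),
      mem_biUnion.2 ⟨b, mem_range.2 hb, hc⟩⟩
    simp [patt, this]
  obtain ⟨Bs, hBs, hT, hall⟩ := halving (2 * m) (by omega)
    (fun b p => ∃ i < j, (∃ c ∈ C b, (g i, c) ∉ p) ∧ (∃ c ∈ C b, (g i, c) ∈ p)) _ _ hP (by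
      intro p hp
      obtain ⟨⟨x, y⟩, hq, rfl⟩ := mem_image.1 hp
      obtain ⟨hx, hy, hxy⟩ := mem_offDiag.1 hq
      have hsub : (range (2 * m)).filter (fun b => ∃ i < j, (∃ c ∈ C b, (g i, c) ∉ patt E (x, y)) ∧
          (∃ c ∈ C b, (g i, c) ∈ patt E (x, y))) ⊆ (range j).biUnion (fun i =>
            (range (2 * m)).filter (fun b => ∃ z ∈ convexHull ℝ (C b : Set Pt),
              D x y (g i) z = 0)) := by
        intro b hb
        obtain ⟨hb1, i, hi, ⟨c, hc, h1⟩, ⟨c', hc', h2⟩⟩ := mem_filter.1 hb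
        have hb' := mem_range.1 hb1
        rw [hmem x y i hi b hb' _ hc] at h1
        rw [hmem x y i hi b hb' _ hc'] at h2
        refine mem_biUnion.2 ⟨i, mem_range.2 hi, mem_filter.2 ⟨hb1, ?_⟩⟩
        exact (isAff_D4 x y (g i)).exists_zero (convex_convexHull ℝ _) (mem_hull hc') (mem_hull hc)
          h2 (not_lt.1 h1)
      have hle := (card_le_card hsub).trans (card_biUnion_le_card_mul _ _ 1 (by
        intro i hi
        have hi' := mem_range.1 hi
        refine card_le_one.2 (fun b hb b' hb' => ?_)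
        by_contra hbb
        obtain ⟨hb1, z, hz, e1⟩ := mem_filter.1 hb
        obtain ⟨hb2, z', hz', e2⟩ := mem_filter.1 hb'
        obtain ⟨c, hc⟩ := (hC b (mem_range.1 hb1)).2.1
        have k1 := hW i hi' b (mem_range.1 hb1) b' (mem_range.1 hb2) hbb x (mem_hull hx) _
          (mem_hull (hg i hi').1) z hz z' hz'
        have k2 := hne x hx y hy hxy i hi' b (mem_range.1 hb1) c hc
        have h5 := (isAff_D4 x y (g i)).five x (g i) z z' c
        simp only [e1, e2, D_self14, D_self34, zero_mul, sub_zero, add_zero, zero_add] at h5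
        exact mul_ne_zero k2 k1 h5))
      rw [card_range] at hle
      refine le_trans (Nat.mul_le_mul_left 2 (le_of_eq_of_le ?_ hle)) (by omega)
      congr)
  obtain ⟨b, hb, r⟩ := nested (fun b x y => NWd j g (C b) x y) Ω Bs X (by
    intro x hx y hy hxy
    obtain ⟨b, hb, hn⟩ := hall _ (mem_image_of_mem (patt E) (mem_offDiag.2 ⟨hx, hy, hxy⟩ :
      (x, y) ∈ X.offDiag))
    have hb' := mem_range.1 (hBs hb)
    refine ⟨b, hb, fun i hi => ?_⟩
    by_cases h : ∀ c ∈ C b, 0 < D x y (g i) c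
    · exact Or.inl h
    · right
      push Not at h
      obtain ⟨c, hc, h1⟩ := h
      intro c' hc'
      refine lt_of_le_of_ne (not_lt.1 (fun h2 => hn ⟨i, hi, ⟨c, hc, ?_⟩, ⟨c', hc', ?_⟩⟩))
        (hne x hx y hy hxy i hi b hb' c' hc')
      · rw [hmem x y i hi b hb' _ hc]; exact not_lt.2 h1
      · rw [hmem x y i hi b hb' _ hc']; exact h2)
    (le_trans (Nat.mul_le_mul_left 2 (Nat.pow_le_pow_right hΩ hT)) hc)
  exact ⟨b, mem_range.1 (hBs hb), r⟩

end Pool.Agent.P.MP_358d01_co.H51
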